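import Pool.Agent.N64.AF.M6

/-!
# The law of the ratios with a fixed factor

`T` is a self-dual object of a rigid symmetric monoidal category with a super realisation, `B` an
arbitrary object. For two families `J`, `I` of subspaces of the spaces `Hom (1, Y)` which are stable
under composition the law for additive functors (`N64/AF`) is applied to `Y ↦ (I / J) (B ⊗ Y)`.
-/

set_option autoImplicit false
set_option linter.unusedSectionVars false

open CategoryTheory Limits MonoidalCategory Module Filter Topology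
open Pool.Agent.Y112.SR Pool.Agent.Y112.KD Pool.Agent.N64.AF
open scoped ENNReal

namespace Pool.Agent.U226.FX

universe v u w t x

/-- The quotient `I / (I ∩ J)` of two subspaces. -/
abbrev Rel {Λ : Type t} [Field Λ] {V : Type v} [AddCommGroup V] [Module Λ V]
    (J I : Submodule Λ V) : Type v := I ⧸ J.comap I.subtype

lemma rel_subsingleton {Λ : Type t} [Field Λ] {V : Type v} [AddCommGroup V] [Module Λ V]
    {J I : Submodule Λ V} : Subsingleton (Rel J I) ↔ I ≤ J := by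
  rw [Submodule.Quotient.subsingleton_iff]
  constructor
  · intro h x hx
    have h1 : (⟨x, hx⟩ : I) ∈ J.comap I.subtype := by rw [h]; trivial
    exact h1
  · intro h
    rw [eq_top_iff]
    intro x _
    exact h x.2

section Fun

variable {C : Type u} [Category.{v} C] [Preadditive C] [MonoidalCategory C]
  {Λ : Type t} [Field Λ] [Linear Λ C]

/-- The subspaces `J Y` of the spaces `Hom (1, Y)` are stable under composition with morphisms. -/
def Stable (J : ∀ Y : C, Submodule Λ (𝟙_ C ⟶ Y)) : Prop :=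
  ∀ ⦃Y Z : C⦄ (f : Y ⟶ Z) (a : 𝟙_ C ⟶ Y), a ∈ J Y → a ≫ f ∈ J Z

variable [MonoidalPreadditive C] [MonoidalLinear Λ C]

/-- The functor `Y ↦ Hom (1, B ⊗ Y)`. -/
abbrev fixF (Λ : Type t) [Field Λ] [Linear Λ C] (B : C) : C ⥤ ModuleCat.{v} Λ :=
  tensorLeft B ⋙ homF Λ (𝟙_ C)

variable {J I : ∀ Y : C, Submodule Λ (𝟙_ C ⟶ Y)}

/-- The subspaces `I (B ⊗ Y)`. -/
def fam (I : ∀ Y : C, Submodule Λ (𝟙_ C ⟶ Y)) (B : C) (Y : C) :
    Submodule Λ ((fixF Λ B).obj Y) := I (B ⊗ Y)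

lemma fam_stab (hI : Stable I) (B : C) : IsStab (fixF Λ B) (fam I B) :=
  fun _ _ f a ha => hI (B ◁ f) a ha

/-- The subspaces `J (B ⊗ Y)` of `I (B ⊗ Y)`. -/
def fam' (J I : ∀ Y : C, Submodule Λ (𝟙_ C ⟶ Y)) (hI : Stable I) (B : C) (Y : C) :
    Submodule Λ ((sub (fixF Λ B) (fam I B) (fam_stab hI B)).obj Y) :=
  (J (B ⊗ Y)).comap (I (B ⊗ Y)).subtype

lemma fam'_stab (hJ : Stable J) (hI : Stable I) (B : C) :
    IsStab (sub (fixF Λ B) (fam I B) (fam_stab hI B)) (fam' J I hI B) :=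
  fun _ _ f a ha => hJ (B ◁ f) a.1 ha

/-- The functor `Y ↦ (I / J) (B ⊗ Y)`. -/
def relF (hJ : Stable J) (hI : Stable I) (B : C) : C ⥤ ModuleCat.{v} Λ :=
  quoS (sub (fixF Λ B) (fam I B) (fam_stab hI B)) (fam' J I hI B) (fam'_stab hJ hI B)

instance (hJ : Stable J) (hI : Stable I) (B : C) : (relF hJ hI B).Additive := by
  unfold relF
  infer_instance

instance (hJ : Stable J) (hI : Stable I) (B : C) : (relF hJ hI B).Linear Λ := by
  unfold relF
  infer_instance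

lemma relF_obj (hJ : Stable J) (hI : Stable I) (B Y : C) :
    ((relF hJ hI B).obj Y : Type v) = Rel (J (B ⊗ Y)) (I (B ⊗ Y)) := rfl

lemma relF_map_zero (hJ : Stable J) (hI : Stable I) (B : C) {Y Z : C} {f : Y ⟶ Z}
    (h : (relF hJ hI B).map f = 0) {a : 𝟙_ C ⟶ B ⊗ Y} (ha : a ∈ I (B ⊗ Y)) :
    a ≫ (B ◁ f) ∈ J (B ⊗ Z) := by
  have h1 : ((relF hJ hI B).map f).hom
      (Submodule.Quotient.mk (⟨a, ha⟩ : I (B ⊗ Y)) : Rel (J (B ⊗ Y)) (I (B ⊗ Y))) = 0 := by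
    rw [h]
    rfl
  have h2 : (Submodule.Quotient.mk (⟨a ≫ (B ◁ f), hI (B ◁ f) a ha⟩ : I (B ⊗ Z)) :
      Rel (J (B ⊗ Z)) (I (B ⊗ Z))) = 0 := h1
  have h3 : (⟨a ≫ (B ◁ f), hI (B ◁ f) a ha⟩ : I (B ⊗ Z)) ∈ (J (B ⊗ Z)).comap (I (B ⊗ Z)).subtype :=
    (Submodule.Quotient.mk_eq_zero _).1 h2
  exact h3

end Fun

section Law

variable {C : Type u} [Category.{v} C] [Preadditive C] [MonoidalCategory C]
  [MonoidalPreadditive C] [SymmetricCategory C] [RightRigidCategory C]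
  {Λ : Type t} [Field Λ] [CharZero Λ] [Linear Λ C] [MonoidalLinear Λ C]
  {K : Type w} [Field K] [IsAlgClosed K] [Algebra Λ K] {R : SuperRealisation C K}
  {J I : ∀ Y : C, Submodule Λ (𝟙_ C ⟶ Y)}

/-- The dimension of `(I / J) (B ⊗ T ^ n)`. -/
noncomputable def dimRel (J I : ∀ Y : C, Submodule Λ (𝟙_ C ⟶ Y)) (B T : C) (n : ℕ) : ℕ∞ :=
  dimE Λ (Rel (J (B ⊗ tp T n)) (I (B ⊗ tp T n)))

/-- **The law with a fixed factor.** -/
theorem fix_law {T : C} [ExactPairing T T] (h : IsPow Λ R T) (hJ : Stable J) (hI : Stable I)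
    (B : C) : ∃ N : ℕ∞, RatioTo Λ T (dimRel J I B T) N ∧
      (N = 0 ↔ ∀ n, I (B ⊗ tp T n) ≤ J (B ⊗ tp T n)) ∧
      (∀ m n : ℕ, 128 * (m + 1) ^ 2 * bt R T ^ (2 * m + 6) ≤ n →
        2 * dimRel J I B T n < numRank Λ (tp T n) → I (B ⊗ tp T m) ≤ J (B ⊗ tp T m)) ∧
      ∀ k : ℕ, N = k → ∀ (a b : ℕ) (f : tp T a ⟶ tp T b), NumPow T k f →
        ∀ x ∈ I (B ⊗ tp T a), x ≫ (B ◁ f) ∈ J (B ⊗ tp T b) := by
  obtain ⟨N, h1, h2, -⟩ := law h (relF hJ hI B)
  refine ⟨N, h1, ?_, ?_, ?_⟩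
  · rw [h2]
    exact forall_congr' fun n => rel_subsingleton
  · intro m n hn hlt
    obtain ⟨h3, h4⟩ := dimE_lt hlt
    exact rel_subsingleton.1 (explicit_criterion h (relF hJ hI B) hn h3 h4)
  · intro k hk a b f hf x hx
    have hN : Tendsto (fun n => ((dimE Λ ((relF hJ hI B).obj (tp T n)) : ℕ∞) : ℝ≥0∞) /
        numRank Λ (tp T n)) atTop (𝓝 (k : ℝ≥0∞)) := by
      have h3 := h1
      rw [hk] at h3
      simpa using h3
    exact relF_map_zero hJ hI B ((structure_thm h _ hN).2 a b f hf) hx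

end Law

end Pool.Agent.U226.FX
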