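import Pool.Agent.U226.FX.Base

/-!
# Products of numerically trivial classes with a fixed class
-/

set_option autoImplicit false
set_option linter.unusedSectionVars false

open CategoryTheory Limits MonoidalCategory Module Filter Topology
open Pool.Agent.Y112.SR Pool.Agent.Y112.KD Pool.Agent.N64.AF
open scoped ENNReal

namespace Pool.Agent.U226.FX

universe v u w t x

variable {C : Type u} [Category.{v} C] [Preadditive C] [MonoidalCategory C]
  [MonoidalPreadditive C] [SymmetricCategory C] [RightRigidCategory C]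
  {Λ : Type t} [Field Λ] [CharZero Λ] [Linear Λ C] [MonoidalLinear Λ C]
  {K : Type w} [Field K] [IsAlgClosed K] [Algebra Λ K] {R : SuperRealisation C K}
  {J I : ∀ Y : C, Submodule Λ (𝟙_ C ⟶ Y)}

/-- Multiplication with the class `α` on `T ^ q`. -/
theorem exists_append (hR : IsReal Λ R) (T : C) {q : ℕ} {α : 𝟙_ C ⟶ tp T q} (hα : NumTriv α)
    (b : ℕ) : ∃ (i : tp T b ⊗ tp T q ≅ tp T (b + q)) (y : tp T b ⟶ tp T (b + q)), NumTriv y ∧
      y = (ρ_ (tp T b)).inv ≫ (tp T b ◁ α) ≫ i.hom := by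
  obtain ⟨i, -⟩ := exists_tp_iso T b q
  exact ⟨i, _, NumTriv.comp hR (NumTriv.whiskerLeft hR hα _) _ _, rfl⟩

/-- The product of a class on `B ⊗ T ^ b` with the class `α` on `T ^ q`. -/
lemma append_apply {B P Q T' Z' : C} (i : P ⊗ T' ≅ Z') (α : 𝟙_ C ⟶ T') (x : 𝟙_ C ⟶ B ⊗ P)
    (c : B ⊗ P ⟶ Q) :
    (x ≫ (B ◁ ((ρ_ P).inv ≫ (P ◁ α) ≫ i.hom))) ≫ (B ◁ i.inv) ≫ (α_ B P T').inv ≫ (c ▷ T') =
      (x ≫ c) ≫ (ρ_ Q).inv ≫ (Q ◁ α) := by
  simp only [MonoidalCategory.whiskerLeft_comp, Category.assoc]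
  rw [← MonoidalCategory.whiskerLeft_comp_assoc B i.hom i.inv, Iso.hom_inv_id,
    MonoidalCategory.whiskerLeft_id, Category.id_comp, associator_inv_naturality_right_assoc,
    whisker_exchange, ← rightUnitor_tensor_inv_assoc, ← rightUnitor_inv_naturality_assoc]

/-- Products with the powers of `α`. -/
theorem iterate (hR : IsReal Λ R) {T B : C} {q : ℕ} {α : 𝟙_ C ⟶ tp T q} (hα : NumTriv α)
    {b j : ℕ} (x : 𝟙_ C ⟶ B ⊗ tp T b) (c : B ⊗ tp T b ⟶ tp (tp T q) j)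
    (hc : x ≫ c = tpow α j) (k : ℕ) : ∃ (b' : ℕ) (f : tp T b ⟶ tp T b')
      (c' : B ⊗ tp T b' ⟶ tp (tp T q) (j + k)), NumPow T k f ∧
        (x ≫ (B ◁ f)) ≫ c' = tpow α (j + k) := by
  induction k with
  | zero =>
    exact ⟨b, 𝟙 _, c, trivial, by rw [MonoidalCategory.whiskerLeft_id, Category.comp_id]; exact hc⟩
  | succ k ih =>
    obtain ⟨b', f, c', hf, hc'⟩ := ih
    obtain ⟨i, y, hy, rfl⟩ := exists_append hR T hα b'
    refine ⟨b' + q, f ≫ _, (B ◁ i.inv) ≫ (α_ B (tp T b') (tp T q)).inv ≫ (c' ▷ tp T q),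
      ⟨b', f, _, hf, hy, rfl⟩, ?_⟩
    rw [MonoidalCategory.whiskerLeft_comp, ← Category.assoc x, append_apply, hc']
    rfl

/-- The realisation of a product of two classes is not zero. -/
lemma map_append_ne (R : SuperRealisation C K) {Q Z : C} {z : 𝟙_ C ⟶ Q} {α : 𝟙_ C ⟶ Z}
    (hz : R.H.map z ≠ 0) (hα : R.H.map α ≠ 0) :
    R.H.map (z ≫ (ρ_ Q).inv ≫ (Q ◁ α)) ≠ 0 := by
  obtain ⟨s, hs⟩ := exists_section R hα
  intro h0
  apply hz
  have h1 : R.H.map (z ≫ (ρ_ Q).inv ≫ (Q ◁ α)) = R.H.map z ≫ R.H.map (ρ_ Q).inv ≫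
      Functor.OplaxMonoidal.δ R.H Q (𝟙_ C) ≫ (R.H.obj Q ◁ R.H.map α) ≫
        Functor.LaxMonoidal.μ R.H Q Z := by
    rw [Functor.map_comp, Functor.map_comp, Functor.Monoidal.map_whiskerLeft]
  calc R.H.map z
      = (R.H.map (z ≫ (ρ_ Q).inv ≫ (Q ◁ α)) ≫ Functor.OplaxMonoidal.δ R.H Q Z ≫
          (R.H.obj Q ◁ s) ≫ Functor.LaxMonoidal.μ R.H Q (𝟙_ C)) ≫
          R.H.map (ρ_ Q).hom := by
        rw [h1]
        simp only [Category.assoc, Functor.Monoidal.μ_δ_assoc]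
        rw [← MonoidalCategory.whiskerLeft_comp_assoc, hs, MonoidalCategory.whiskerLeft_id,
          Category.id_comp, Functor.Monoidal.δ_μ_assoc, ← Functor.map_comp, Iso.inv_hom_id,
          CategoryTheory.Functor.map_id, Category.comp_id]
    _ = 0 := by rw [h0, zero_comp, zero_comp]

/-- Products with the powers of `α` and homological equivalence. -/
theorem iterate_hom (hR : IsReal Λ R) {T B : C} {q : ℕ} {α : 𝟙_ C ⟶ tp T q} (hα : NumTriv α)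
    (hα' : R.H.map α ≠ 0) {b : ℕ} (x : 𝟙_ C ⟶ B ⊗ tp T b) (hx : R.H.map x ≠ 0) (k : ℕ) :
    ∃ (b' : ℕ) (f : tp T b ⟶ tp T b'), NumPow T k f ∧ R.H.map (x ≫ (B ◁ f)) ≠ 0 := by
  induction k with
  | zero =>
    exact ⟨b, 𝟙 _, trivial, by rw [MonoidalCategory.whiskerLeft_id, Category.comp_id]; exact hx⟩
  | succ k ih =>
    obtain ⟨b', f, hf, hne⟩ := ih
    obtain ⟨i, y, hy, rfl⟩ := exists_append hR T hα b'
    refine ⟨b' + q, f ≫ _, ⟨b', f, _, hf, hy, rfl⟩, ?_⟩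
    intro h0
    have h1 := map_append_ne R hne hα'
    apply h1
    have h2 := append_apply i α (x ≫ (B ◁ f)) (𝟙 _)
    rw [Category.comp_id] at h2
    rw [← h2, Category.assoc x, ← MonoidalCategory.whiskerLeft_comp, Functor.map_comp, h0,
      zero_comp]

/-- **Breeding.** If the ratio for `B` and the classes between `J` and `I` is finite then powers of
the numerically trivial classes on the powers of `T` belong to `J`, if there is a class on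
`B ⊗ T ^ p` with a dual class. -/
theorem breed {T : C} [ExactPairing T T] (h : IsPow Λ R T) (hJ : Stable J) {B : C}
    {N : ℕ} (hN : ∀ (a b : ℕ) (f : tp T a ⟶ tp T b), NumPow T N f →
      ∀ x ∈ I (B ⊗ tp T a), x ≫ (B ◁ f) ∈ J (B ⊗ tp T b))
    {p : ℕ} {β : 𝟙_ C ⟶ B ⊗ tp T p} {β' : B ⊗ tp T p ⟶ 𝟙_ C} (hβ : β ≫ β' = 𝟙 _)
    {q : ℕ} {α : 𝟙_ C ⟶ tp T q} (hα : NumTriv α)
    (hI : ∀ (i : tp T p ⊗ tp T q ≅ tp T (p + q)),
      β ≫ (B ◁ ((ρ_ (tp T p)).inv ≫ (tp T p ◁ α) ≫ i.hom)) ∈ I (B ⊗ tp T (p + q))) :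
    tpow α (1 + N) ∈ J (tp (tp T q) (1 + N)) := by
  obtain ⟨i, y, hy, rfl⟩ := exists_append h.real T hα p
  have h1 := append_apply i α β β'
  have h2 : (β ≫ β') ≫ (ρ_ (𝟙_ C)).inv ≫ (𝟙_ C ◁ α) = tpow α 1 := by
    rw [hβ]
    rfl
  rw [h2] at h1
  obtain ⟨b', f, c', hf, hc'⟩ := iterate h.real (b := p + q) (j := 1) hα
    (β ≫ (B ◁ ((ρ_ (tp T p)).inv ≫ (tp T p ◁ α) ≫ i.hom))) _ h1 N
  rw [← hc']
  exact hJ _ _ (hN _ _ f hf _ (hI i))

end Pool.Agent.U226.FX
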