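import Pool.Agent.U226.FX.Nc
import Pool.Agent.N64.AF.L1
import Pool.Agent.N64.AF.V2

/-!
# The law with a fixed factor for rational and numerical equivalence
-/

set_option autoImplicit false
set_option linter.unusedSectionVars false

open CategoryTheory Limits MonoidalCategory Module Filter Topology
open Pool.Agent.Y112.SR Pool.Agent.Y112.KD Pool.Agent.N64.AF Pool.Agent.N413.AFW
open scoped ENNReal

namespace Pool.Agent.U226.FX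

universe v u w t x

section Mono

variable {C : Type u} [Category.{v} C] [Preadditive C] [MonoidalCategory C]
  [MonoidalPreadditive C]

/-- A morphism is zero if its product with a dual object is zero. -/
lemma whisker_zero {Y D Z : C} [ExactPairing Y D] (f : Y ⟶ Z) (h : f ▷ D = 0) : f = 0 := by
  have h1 : f ▷ (D ⊗ Y) = 0 := by
    rw [whiskerRight_tensor, h, MonoidalPreadditive.zero_whiskerRight, zero_comp, comp_zero]
  calc f = (λ_ Y).inv ≫ ((λ_ Y).hom ≫ (ρ_ Y).inv) ≫ (f ▷ 𝟙_ C) ≫ (ρ_ Z).hom := by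
        rw [rightUnitor_naturality]
        simp
    _ = (λ_ Y).inv ≫ (η_ Y D ▷ Y ≫ (α_ Y D Y).hom ≫ Y ◁ ε_ Y D) ≫ (f ▷ 𝟙_ C) ≫ (ρ_ Z).hom := by
        rw [ExactPairing.evaluation_coevaluation]
    _ = (λ_ Y).inv ≫ η_ Y D ▷ Y ≫ (α_ Y D Y).hom ≫ f ▷ (D ⊗ Y) ≫ (Z ◁ ε_ Y D) ≫
          (ρ_ Z).hom := by
        simp only [Category.assoc]
        rw [whisker_exchange_assoc]
    _ = 0 := by
        rw [h1]
        simp

end Mono

section Gen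

variable {C : Type u} [Category.{v} C] [Preadditive C] [MonoidalCategory C]
  [MonoidalPreadditive C] [SymmetricCategory C] [RightRigidCategory C]
  {Λ : Type t} [Field Λ] [CharZero Λ] [Linear Λ C] [MonoidalLinear Λ C]
  {K : Type w} [Field K] [IsAlgClosed K] [Algebra Λ K] {R : SuperRealisation C K}

lemma numPow_split {T : C} (k : ℕ) : ∀ {a b : ℕ} {f : tp T a ⟶ tp T b}, NumPow T (k + 1) f →
    ∃ (c : ℕ) (g : tp T a ⟶ tp T c) (h : tp T c ⟶ tp T b), NumPow T 1 g ∧ NumPow T k h ∧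
      f = g ≫ h := by
  induction k with
  | zero =>
    intro a b f hf
    exact ⟨b, f, 𝟙 _, hf, trivial, (Category.comp_id _).symm⟩
  | succ k ih =>
    rintro a b f ⟨d, g, y, hg, hy, rfl⟩
    obtain ⟨c, g', h', h1, h2, rfl⟩ := ih hg
    exact ⟨c, g', h' ≫ y, h1, ⟨d, h', y, h2, hy, rfl⟩, Category.assoc _ _ _⟩

lemma numTriv_of_pow (hR : IsReal Λ R) {T Y Z : C} {f : Y ⟶ Z} (h : NumPow T 1 f) :
    NumTriv f := by
  obtain ⟨d, g, y, -, hy, rfl⟩ := h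
  have h2 := NumTriv.comp hR hy g (𝟙 _)
  rw [Category.comp_id] at h2
  exact h2

lemma numPow_left' (hR : IsReal Λ R) {T : C} (p : ℕ) (k : ℕ) : ∀ {c b : ℕ}
    {h : tp T c ⟶ tp T b}, NumPow T k h → ∀ {c' b' : ℕ} (i : tp T c' ⟶ tp T p ⊗ tp T c)
      (j : tp T p ⊗ tp T b ⟶ tp T b'), NumPow T k (i ≫ (tp T p ◁ h) ≫ j) := by
  induction k with
  | zero => intros; trivial
  | succ k ih =>
    rintro c b h ⟨d, g, y, hg, hy, rfl⟩ c' b' i j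
    obtain ⟨e, -⟩ := exists_tp_iso T p d
    refine ⟨p + d, i ≫ (tp T p ◁ g) ≫ e.hom, e.inv ≫ (tp T p ◁ y) ≫ j, ih hg i e.hom, ?_, ?_⟩
    · exact NumTriv.comp hR (NumTriv.whiskerLeft hR hy _) _ _
    · simp only [MonoidalCategory.whiskerLeft_comp, Category.assoc, Iso.hom_inv_id_assoc]

/-- If the ratio is a number `N` then the compositions of `N + 1` numerically trivial morphisms
are zero. -/
theorem num_vanish (hR : IsReal Λ R) {T : C} [ExactPairing T T] {B : C} {N : ℕ}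
    (hN : ∀ (a b : ℕ) (f : tp T a ⟶ tp T b), NumPow T N f →
        ∀ x : 𝟙_ C ⟶ B ⊗ tp T a, NumTriv x → x ≫ (B ◁ f) = 0)
    {p : ℕ} {β : 𝟙_ C ⟶ B ⊗ tp T p} (hβ : ¬ NumTriv β) (a : ℕ) :
    ∀ (b : ℕ) (f : tp T a ⟶ tp T b), NumPow T (N + 1) f → f = 0 := by
  refine Pool.Agent.N645.AFK1.vanish hR (fun b f hf => ?_) a
  obtain ⟨c, g, h, hg, hh, rfl⟩ := numPow_split N (a := 0) hf
  have hg' : NumTriv g := numTriv_of_pow hR hg
  obtain ⟨β', hβ'⟩ := exists_dual hR hβ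
  obtain ⟨i, -⟩ := exists_tp_iso T p c
  obtain ⟨j, -⟩ := exists_tp_iso T p b
  have g' : 𝟙_ C ⟶ tp T c := g
  have h1 := hN _ _ (i.inv ≫ (tp T p ◁ h) ≫ j.hom) (numPow_left' hR p N hh i.inv j.hom)
    (β ≫ (B ◁ ((ρ_ (tp T p)).inv ≫ (tp T p ◁ (g : 𝟙_ C ⟶ tp T c)) ≫ i.hom))) (by
      have k1 : NumTriv ((ρ_ (tp T p)).inv ≫ (tp T p ◁ (g : 𝟙_ C ⟶ tp T c)) ≫ i.hom) :=
        NumTriv.comp hR (NumTriv.whiskerLeft hR hg' _) _ _
      have k2 := NumTriv.comp hR (NumTriv.whiskerLeft hR k1 B) β (𝟙 _)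
      rw [Category.comp_id] at k2
      exact k2)
  have h2 : β ≫ (B ◁ ((ρ_ (tp T p)).inv ≫ (tp T p ◁ ((g : 𝟙_ C ⟶ tp T c) ≫ h)) ≫ j.hom)) =
      0 := by
    rw [← h1]
    simp only [MonoidalCategory.whiskerLeft_comp, Category.assoc]
    rw [← MonoidalCategory.whiskerLeft_comp_assoc B i.hom i.inv, Iso.hom_inv_id,
      MonoidalCategory.whiskerLeft_id, Category.id_comp]
  have h3 := append_apply j ((g : 𝟙_ C ⟶ tp T c) ≫ h) β β'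
  rw [h2, zero_comp, hβ'] at h3
  have h5 : (g : 𝟙_ C ⟶ tp T c) ≫ h =
      ((𝟙 (𝟙_ C)) ≫ (ρ_ (𝟙_ C)).inv ≫ (𝟙_ C ◁ ((g : 𝟙_ C ⟶ tp T c) ≫ h))) ≫ (λ_ _).hom := by
    rw [Category.id_comp, Category.assoc, leftUnitor_naturality, ← unitors_inv_equal,
      Iso.inv_hom_id_assoc]
  change (g : 𝟙_ C ⟶ tp T c) ≫ h = 0
  rw [h5, ← h3, zero_comp]

/-- Powers of numerically trivial endomorphisms of the powers of `T`. -/
theorem end_pow (hR : IsReal Λ R) {T : C} {k : ℕ}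
    (h0 : ∀ (a b : ℕ) (f : tp (T ⊗ Tᘁ) a ⟶ tp (T ⊗ Tᘁ) b), NumPow (T ⊗ Tᘁ) k f → f = 0)
    (n : ℕ) (y : End (tp T n)) (hy : NumTriv (y : tp T n ⟶ tp T n)) : y ^ k = 0 := by
  let _ : ExactPairing (tp T n) (dp Tᘁ n) := pairTp T Tᘁ n
  let y' : End (tp (T ⊗ Tᘁ) n) :=
    (isoTp T Tᘁ n).hom ≫ ((y : tp T n ⟶ tp T n) ▷ dp Tᘁ n) ≫ (isoTp T Tᘁ n).inv
  have hy' : NumTriv (y' : tp (T ⊗ Tᘁ) n ⟶ tp (T ⊗ Tᘁ) n) :=
    NumTriv.comp hR (NumTriv.whiskerRight hR hy _) _ _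
  have h1 : ∀ j : ℕ, ((y' ^ j : End (tp (T ⊗ Tᘁ) n)) : tp (T ⊗ Tᘁ) n ⟶ tp (T ⊗ Tᘁ) n) =
      (isoTp T Tᘁ n).hom ≫ (((y ^ j : End (tp T n)) : tp T n ⟶ tp T n) ▷ dp Tᘁ n) ≫
        (isoTp T Tᘁ n).inv := by
    intro j
    induction j with
    | zero =>
      change 𝟙 _ = (isoTp T Tᘁ n).hom ≫ ((𝟙 (tp T n)) ▷ dp Tᘁ n) ≫ (isoTp T Tᘁ n).inv
      rw [id_whiskerRight, Category.id_comp, Iso.hom_inv_id]
    | succ j ih =>
      rw [pow_succ', pow_succ', End.mul_def, End.mul_def, comp_whiskerRight]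
      change ((y' ^ j : End (tp (T ⊗ Tᘁ) n)) : tp (T ⊗ Tᘁ) n ⟶ tp (T ⊗ Tᘁ) n) ≫
        ((isoTp T Tᘁ n).hom ≫ ((y : tp T n ⟶ tp T n) ▷ dp Tᘁ n) ≫ (isoTp T Tᘁ n).inv) = _
      rw [ih]
      simp only [Category.assoc, Iso.inv_hom_id_assoc]
  have h2 := h0 n n _ (numPow_pow y' hy' k)
  rw [h1 k] at h2
  have h3 : ((y ^ k : End (tp T n)) : tp T n ⟶ tp T n) ▷ dp Tᘁ n = 0 := by
    have h4 : ((y ^ k : End (tp T n)) : tp T n ⟶ tp T n) ▷ dp Tᘁ n =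
        (isoTp T Tᘁ n).inv ≫ ((isoTp T Tᘁ n).hom ≫
          (((y ^ k : End (tp T n)) : tp T n ⟶ tp T n) ▷ dp Tᘁ n) ≫ (isoTp T Tᘁ n).inv) ≫
            (isoTp T Tᘁ n).hom := by simp
    rw [h4, h2, zero_comp, comp_zero]
  exact whisker_zero _ h3

/-- Tensor powers of numerically trivial classes. -/
theorem tpow_zero {T : C} {R : SuperRealisation C K} (hR : IsReal Λ R) {k : ℕ}
    (h0 : ∀ (a b : ℕ) (f : tp T a ⟶ tp T b), NumPow T k f → f = 0)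
    {n : ℕ} (α : 𝟙_ C ⟶ tp T n) (hα : NumTriv α) : tpow α k = 0 := by
  obtain ⟨b, ⟨i⟩⟩ := N690V2.exists_iso T n k
  have h1 := h0 0 b _ (N690V2.numPow_tpow hR hα k b i.hom)
  have h2 : tpow α k = (tpow α k ≫ i.hom) ≫ i.inv := by
    rw [Category.assoc, Iso.hom_inv_id, Category.comp_id]
  rw [h2]
  exact (congrArg (fun z => z ≫ i.inv) h1).trans zero_comp

lemma zero_stable : Stable (fun Y : C => (⊥ : Submodule Λ (𝟙_ C ⟶ Y))) := by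
  intro Y Z f a ha
  rw [Submodule.mem_bot] at ha ⊢
  rw [ha, zero_comp]

/-- The dimension of the space of the numerically trivial classes on `B ⊗ T ^ n`. -/
noncomputable def numDim (Λ : Type t) [Field Λ] [Linear Λ C] [MonoidalLinear Λ C] (B T : C)
    (n : ℕ) : ℕ∞ := dimE Λ (numIdeal Λ (𝟙_ C) (B ⊗ tp T n))

lemma dimRel_bot (B T : C) :
    dimRel (fun Y : C => (⊥ : Submodule Λ (𝟙_ C ⟶ Y))) (fun Y : C => numIdeal Λ (𝟙_ C) Y) B T =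
      numDim Λ B T := by
  funext n
  have e : Rel (⊥ : Submodule Λ (𝟙_ C ⟶ B ⊗ tp T n)) (numIdeal Λ (𝟙_ C) (B ⊗ tp T n)) ≃ₗ[Λ]
      numIdeal Λ (𝟙_ C) (B ⊗ tp T n) :=
    Submodule.quotEquivOfEqBot _ (by
      rw [eq_bot_iff]
      intro x hx
      have h1 : (x : 𝟙_ C ⟶ B ⊗ tp T n) = 0 := hx
      rw [Submodule.mem_bot]
      exact Subtype.ext h1)
  unfold dimRel numDim dimE
  rw [LinearEquiv.rank_eq e]

end Gen

/-- **The law with a fixed factor for rational and numerical equivalence.** -/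
theorem chi_law {C : Type u} [Category.{v} C] [Preadditive C] [MonoidalCategory C]
    [MonoidalPreadditive C] [SymmetricCategory C] [RightRigidCategory C]
    [Linear ℚ C] [MonoidalLinear ℚ C] [IsIdempotentComplete C]
    {K : Type w} [Field K] [IsAlgClosed K] [Algebra ℚ K] {R : SuperRealisation C K}
    (hR : IsReal ℚ R) {T : C} (hT : R.CPlus T) (hb : 0 < bt R T) (B : C) :
    ∃ N d : ℕ∞, RatioTo ℚ (T ⊗ Tᘁ) (numDim ℚ B (T ⊗ Tᘁ)) N ∧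
      RatioTo ℚ (T ⊗ Tᘁ) (rankSeq ℚ B (T ⊗ Tᘁ)) d ∧
      (N = 0 ↔ ∀ (n : ℕ) (α : 𝟙_ C ⟶ B ⊗ tp (T ⊗ Tᘁ) n), NumTriv α → α = 0) ∧
      (d = 0 ↔ ∀ (n : ℕ) (α : 𝟙_ C ⟶ B ⊗ tp (T ⊗ Tᘁ) n), NumTriv α) ∧
      (R.CPlus B → d ≤ bt R B) ∧
      (d ≠ 0 → d ≠ ⊤ → Quot (numDim ℚ B (T ⊗ Tᘁ)) (rankSeq ℚ B (T ⊗ Tᘁ)) ((N : ℝ≥0∞) / d)) ∧
      (d ≠ 0 → ∀ k : ℕ, N = k →
        (∀ (n : ℕ) (α : 𝟙_ C ⟶ tp (T ⊗ Tᘁ) n), NumTriv α → tpow α (k + 1) = 0) ∧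
        (∀ (n : ℕ) (y : End (tp T n)), NumTriv (y : tp T n ⟶ tp T n) → y ^ (k + 1) = 0) ∧
        Pool.Agent.R905.IsKimuraFinite T) ∧
      ∀ (m n : ℕ) (α : 𝟙_ C ⟶ B ⊗ tp (T ⊗ Tᘁ) m), NumTriv α → α ≠ 0 →
        128 * (m + 1) ^ 2 * bt R T ^ (4 * m + 12) ≤ n →
          (numRank ℚ (tp (T ⊗ Tᘁ) n) : ℕ∞) ≤ 2 * numDim ℚ B (T ⊗ Tᘁ) n ∧
          ((bt R T ^ (2 * n) : ℕ) : ℕ∞) ≤
            (2 * (n + 1) ^ (bt R T ^ 2) : ℕ) * numDim ℚ B (T ⊗ Tᘁ) n := by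
  obtain ⟨N, d, h1, h2, h3, h4, h5, h6, h7, h8⟩ := main_nc hR hT hb (zero_stable (Λ := ℚ)) B
  obtain ⟨inst, hS⟩ := isPow_tensor_dual hR hT hb
  rw [dimRel_bot] at h1 h6 h7
  refine ⟨N, d, h1, h2, ?_, h4, h5, h6, ?_, ?_⟩
  · rw [h3]
    refine forall_congr' fun n => forall_congr' fun α => ?_
    rw [Submodule.mem_bot]
  · intro hd k hk
    have hex : ∃ (p : ℕ) (β : 𝟙_ C ⟶ B ⊗ tp (T ⊗ Tᘁ) p), ¬ NumTriv β := by
      by_contra hcon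
      push Not at hcon
      exact hd (h4.2 hcon)
    obtain ⟨p, β, hβ⟩ := hex
    have h0 : ∀ (a b : ℕ) (f : tp (T ⊗ Tᘁ) a ⟶ tp (T ⊗ Tᘁ) b), NumPow (T ⊗ Tᘁ) (k + 1) f →
        f = 0 := by
      intro a b f hf
      refine num_vanish hR (N := k) (fun a b f hf x hx => ?_) hβ a b f hf
      exact (Submodule.mem_bot ℚ).1 (h8 k hk a b f hf x hx)
    refine ⟨fun n α hα => tpow_zero hR h0 α hα, fun n y hy => end_pow hR h0 n y hy,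
      kimura_of_nil hR hT fun n y hy => ⟨k + 1, end_pow hR h0 n y (numTriv_of_map hR hy)⟩⟩
  · intro m n α hα hα' hn
    exact h7 m n hn α hα fun h => hα' ((Submodule.mem_bot ℚ).1 h)

end Pool.Agent.U226.FX
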