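import Pool.Agent.U226.FX.Ker
import Pool.Agent.N64.AF.M6

/-!
# Homologically trivial cycles and varieties without odd cohomology
-/

set_option autoImplicit false
set_option linter.unusedSectionVars false

open CategoryTheory Limits MonoidalCategory Module Filter Topology
open Pool.Agent.Y112.SR Pool.Agent.Y112.KD Pool.Agent.N64.AF
open scoped ENNReal

namespace Pool.Agent.U226.FX

universe v u w t x

variable {C : Type u} [Category.{v} C] [Preadditive C] [MonoidalCategory C]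
  [MonoidalPreadditive C] [SymmetricCategory C] [RightRigidCategory C]
  [Linear ℚ C] [MonoidalLinear ℚ C]
  {K : Type w} [Field K] [IsAlgClosed K] [Algebra ℚ K] {R : SuperRealisation C K}

/-- The homologically trivial morphisms form an ideal as in `AJKernel`. -/
def homKer (hR : IsReal ℚ R) : AJKernel R where
  ker := fun Y Z => homSub hR Y Z
  pre := by
    intro W Y Z g f hf
    change R.H.map (g ≫ f) = 0
    rw [Functor.map_comp, show R.H.map f = 0 from hf, comp_zero]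
  post := by
    intro W Y Z f g hf
    change R.H.map (f ≫ g) = 0
    rw [Functor.map_comp, show R.H.map f = 0 from hf, zero_comp]
  left := by
    intro W Y Z f hf
    change R.H.map (W ◁ f) = 0
    rw [Functor.Monoidal.map_whiskerLeft, show R.H.map f = 0 from hf]
    simp
  right := by
    intro W Y Z f hf
    change R.H.map (f ▷ W) = 0
    rw [Functor.Monoidal.map_whiskerRight, show R.H.map f = 0 from hf]
    simp
  hom := fun _ hf => hf
  comp := by
    intro W Y Z f g hf _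
    change R.H.map (f ≫ g) = 0
    rw [Functor.map_comp, hf, zero_comp]

/-- The dimension of the space of the homologically trivial classes on `B ⊗ T ^ n`. -/
noncomputable def homDim (hR : IsReal ℚ R) (B T : C) (n : ℕ) : ℕ∞ :=
  dimE ℚ (homSub hR (𝟙_ C) (B ⊗ tp T n))

/-- The realisation of the powers of an object without odd part. -/
lemma cplus_of_even {T : C} (h : R.par T = 𝟙 _) : R.CPlus T := by
  refine ⟨𝟙 T, ?_⟩
  rw [h, CategoryTheory.Functor.map_id, two_smul]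

lemma unitQ_of (hR : IsReal ℚ R) : UnitQ C := by
  refine ⟨hR.unit, fun h => ?_⟩
  have h1 := bt_unit R
  have h2 : 𝟙 (R.H.obj (𝟙_ C)) = 0 := by
    rw [← CategoryTheory.Functor.map_id, h, Functor.map_zero]
  have h3 : IsZero (R.H.obj (𝟙_ C)) := (IsZero.iff_id_eq_zero _).2 h2
  have h4 : Subsingleton (R.H.obj (𝟙_ C)) := ModuleCat.subsingleton_of_isZero h3
  unfold bt at h1
  rw [finrank_zero_of_subsingleton] at h1
  exact zero_ne_one h1

/-- A power of a homologically trivial endomorphism. -/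
theorem hom_pow (hR : IsReal ℚ R) {T : C} [ExactPairing T T] {B : C} {N : ℕ}
    (hN : ∀ (a b : ℕ) (f : tp T a ⟶ tp T b), NumPow T N f →
        ∀ x ∈ (homKer hR).ker (𝟙_ C) (B ⊗ tp T a), x ≫ (B ◁ f) = 0)
    {p : ℕ} {β : 𝟙_ C ⟶ B ⊗ tp T p} (hβ : ¬ NumTriv β) (n : ℕ) (y : End (tp T n))
    (hy : R.H.map (y : tp T n ⟶ tp T n) = 0) : y ^ (N + 1) = 0 := by
  have h1 := ker_vanish hR (homKer hR) hN hβ n (y : tp T n ⟶ tp T n) hy
    ((y ^ N : End (tp T n)) : tp T n ⟶ tp T n) (numPow_pow y (numTriv_of_map hR hy) N)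
  rw [pow_succ]
  exact h1

/-- Homologically trivial classes are smash-nilpotent. -/
theorem hom_tpow (hR : IsReal ℚ R) {T : C} [ExactPairing T T] {B : C} {N : ℕ}
    (hN : ∀ (a b : ℕ) (f : tp T a ⟶ tp T b), NumPow T N f →
        ∀ x ∈ (homKer hR).ker (𝟙_ C) (B ⊗ tp T a), x ≫ (B ◁ f) = 0)
    {p : ℕ} {β : 𝟙_ C ⟶ B ⊗ tp T p} (hβ : ¬ NumTriv β) {q : ℕ} (α : 𝟙_ C ⟶ tp T q)
    (hα : R.H.map α = 0) : tpow α (N + 1) = 0 := by
  have key : ∀ k : ℕ, ∃ (b : ℕ) (i : tp (tp T q) 1 ≅ tp T q) (h : tp T q ⟶ tp T b)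
      (j : tp (tp T q) (1 + k) ≅ tp T b), NumPow T k h ∧
      tpow α (1 + k) ≫ j.hom = (tpow α 1 ≫ i.hom) ≫ h := by
    intro k
    induction k with
    | zero => exact ⟨q, λ_ (tp T q), 𝟙 _, λ_ (tp T q), trivial, (Category.comp_id _).symm⟩
    | succ k ih =>
      obtain ⟨b, i, h, j, hh, e⟩ := ih
      obtain ⟨l, -⟩ := exists_tp_iso T b q
      refine ⟨b + q, i, h ≫ (ρ_ (tp T b)).inv ≫ (tp T b ◁ α) ≫ l.hom,
        whiskerRightIso j (tp T q) ≪≫ l, ⟨b, h, _, hh, ?_, rfl⟩, ?_⟩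
      · exact NumTriv.comp hR (NumTriv.whiskerLeft hR (numTriv_of_map hR hα) _) _ _
      · change (tpow α (1 + k) ≫ (ρ_ (tp (tp T q) (1 + k))).inv ≫ (tp (tp T q) (1 + k) ◁ α)) ≫
          (j.hom ▷ tp T q) ≫ l.hom = _
        rw [Category.assoc, Category.assoc, whisker_exchange_assoc,
          ← rightUnitor_inv_naturality_assoc, ← Category.assoc (tpow α (1 + k)), e]
        simp only [Category.assoc]
  obtain ⟨b, i, h, j, hh, e⟩ := key N
  have h0 : R.H.map (tpow α 1 ≫ i.hom) = 0 := by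
    rw [Functor.map_comp, map_tpow_succ hα 0, zero_comp]
  have h1 := ker_vanish hR (homKer hR) hN hβ 0 (tpow α 1 ≫ i.hom) h0 h hh
  have h2 : tpow α (1 + N) ≫ j.hom = 0 := e.trans h1
  have h3 : tpow α (1 + N) = (tpow α (1 + N) ≫ j.hom) ≫ j.inv := by
    rw [Category.assoc, Iso.hom_inv_id, Category.comp_id]
  rw [Nat.add_comm N 1, h3, h2, zero_comp]

/-- The exterior power of degree `b + 1` of an object without odd part. -/
theorem asym_zero [IsIdempotentComplete C] (hR : IsReal ℚ R) {T : C} (hev : R.par T = 𝟙 _)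
    {k : ℕ} (h : ∀ y : End (tp T (bt R T + 1)),
      R.H.map (y : tp T (bt R T + 1) ⟶ tp T (bt R T + 1)) = 0 → y ^ (k + 1) = 0) :
    asym (-1) T (bt R T + 1) = 0 := by
  have h1 := Pool.Agent.N861.AF.map_asym_zero R (unitQ_of hR) (E := T) 1 (by norm_num)
    (by rw [hev]; norm_num)
  have h2 : IsIdempotentElem (show End (tp T (bt R T + 1)) from asym (-1) T (bt R T + 1)) :=
    asym_idem (by norm_num) T _
  have h3 := h2.pow_succ_eq k
  rw [h (show End (tp T (bt R T + 1)) from asym (-1) T (bt R T + 1)) h1] at h3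
  exact h3.symm

/-- **The law for homologically trivial cycles and objects without odd part.** -/
theorem even_law [IsIdempotentComplete C] (hR : IsReal ℚ R) {T : C} [ExactPairing T T]
    (hev : R.par T = 𝟙 _) (hret : ∃ (i : 𝟙_ C ⟶ T) (r : T ⟶ 𝟙_ C), i ≫ r = 𝟙 (𝟙_ C)) (B : C) :
    ∃ N d : ℕ∞, RatioTo ℚ T (homDim hR B T) N ∧ RatioTo ℚ T (rankSeq ℚ B T) d ∧
      (N = 0 ↔ ∀ (n : ℕ) (α : 𝟙_ C ⟶ B ⊗ tp T n), R.H.map α = 0 → α = 0) ∧
      (d = 0 ↔ ∀ (n : ℕ) (α : 𝟙_ C ⟶ B ⊗ tp T n), NumTriv α) ∧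
      (R.par B = 𝟙 _ → d ≤ bt R B) ∧
      (d ≠ 0 → ∀ k : ℕ, N = k →
        (∀ (n : ℕ) (y : End (tp T n)), R.H.map (y : tp T n ⟶ tp T n) = 0 → y ^ (k + 1) = 0) ∧
        (∀ (n : ℕ) (α : 𝟙_ C ⟶ tp T n), R.H.map α = 0 → tpow α (k + 1) = 0) ∧
        asym (-1) T (bt R T + 1) = 0) ∧
      ∀ (m n : ℕ) (α : 𝟙_ C ⟶ B ⊗ tp T m), R.H.map α = 0 → α ≠ 0 →
        128 * (m + 1) ^ 2 * bt R T ^ (2 * m + 6) ≤ n →
          (numRank ℚ (tp T n) : ℕ∞) ≤ 2 * homDim hR B T n ∧
          ((bt R T ^ (2 * n) : ℕ) : ℕ∞) ≤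
            (2 * (n + 1) ^ (bt R T ^ 2) : ℕ) * homDim hR B T (n + n) := by
  have h : IsPow ℚ R T := ⟨hR, cplus_of_even hev, hret⟩
  obtain ⟨N, h1, h2, h3, h4⟩ := fix_law h bot_stable (ker_stable (homKer hR)) B
  obtain ⟨d, k1, k2, k3⟩ := num_law h B
  have e1 : dimRel (fun Y : C => (⊥ : Submodule ℚ (𝟙_ C ⟶ Y)))
      (fun Y : C => (homKer hR).ker (𝟙_ C) Y) B T = homDim hR B T := dimRel_ker _ B T
  rw [e1] at h1
  have h3' : ∀ (m n : ℕ) (α : 𝟙_ C ⟶ B ⊗ tp T m), R.H.map α = 0 → α ≠ 0 →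
      128 * (m + 1) ^ 2 * bt R T ^ (2 * m + 6) ≤ n →
        (numRank ℚ (tp T n) : ℕ∞) ≤ 2 * homDim hR B T n := by
    intro m n α hα hα' hn
    by_contra hcon
    rw [not_le] at hcon
    rw [e1] at h3
    have := h3 m n hn hcon hα
    exact hα' ((Submodule.mem_bot ℚ).1 this)
  refine ⟨N, d, h1, k1, ?_, ?_, fun hB => k2 (cplus_of_even hB), ?_, ?_⟩
  · rw [h2]
    refine forall_congr' fun n => ⟨fun h α hα => (Submodule.mem_bot ℚ).1 (h hα),
      fun h α hα => (Submodule.mem_bot ℚ).2 (h α hα)⟩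
  · constructor
    · intro hd n α
      by_contra hα
      exact k3.1 ⟨n, α, hα⟩ hd
    · intro hall
      by_contra hd
      obtain ⟨p, β, hβ⟩ := k3.2 hd
      exact hβ (hall p β)
  · intro hd k hk
    obtain ⟨p, β, hβ⟩ := k3.2 hd
    have hN : ∀ (a b : ℕ) (f : tp T a ⟶ tp T b), NumPow T k f →
        ∀ x ∈ (homKer hR).ker (𝟙_ C) (B ⊗ tp T a), x ≫ (B ◁ f) = 0 :=
      fun a b f hf x hx => (Submodule.mem_bot ℚ).1 (h4 k hk a b f hf x hx)
    exact ⟨fun n y hy => hom_pow hR hN hβ n y hy, fun n α hα => hom_tpow hR hN hβ α hα,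
      asym_zero hR hev fun y hy => hom_pow hR hN hβ _ y hy⟩
  · intro m n α hα hα' hn
    exact ⟨h3' m n α hα hα' hn,
      growth_of h (h3' m (n + n) α hα hα' (hn.trans (Nat.le_add_left n n)))⟩

end Pool.Agent.U226.FX
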