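import Pool.Agent.U226.FX.Par

/-!
# The eigenspaces of the Frobenius on the values of an additive functor
-/

set_option autoImplicit false
set_option linter.unusedSectionVars false

open CategoryTheory Limits MonoidalCategory Module Polynomial Filter Topology
open Pool.Agent.Y112.SR Pool.Agent.Y112.KD Pool.Agent.N64.AF Pool.Agent.U724.NT
open Pool.Agent.U724.PH Pool.Agent.N8.AFBb Pool.Agent.U724.FF
open scoped ENNReal

namespace Pool.Agent.U226.FX

universe v u w t x

section Def

variable {C : Type u} [Category.{v} C] {Λ : Type t} [Field Λ]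

/-- The eigenspace of `F (φ)` for the eigenvalue `r`. -/
def eigF (F : C ⥤ ModuleCat.{x} Λ) {U : C} (φ : U ⟶ U) (r : Λ) : Submodule Λ (F.obj U) where
  carrier := {x | (F.map φ).hom x = r • x}
  zero_mem' := by
    change (F.map φ).hom 0 = r • 0
    rw [map_zero, smul_zero]
  add_mem' := fun {a b} ha hb => by
    change (F.map φ).hom (a + b) = r • (a + b)
    rw [map_add, show (F.map φ).hom a = r • a from ha, show (F.map φ).hom b = r • b from hb,
      smul_add]
  smul_mem' := fun c a ha => by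
    change (F.map φ).hom (c • a) = r • c • a
    rw [map_smul, show (F.map φ).hom a = r • a from ha, smul_comm]

end Def

variable {C : Type u} [Category.{v} C] [Preadditive C] [MonoidalCategory C]
  [MonoidalPreadditive C] [SymmetricCategory C] [RightRigidCategory C]
  {Λ : Type t} [Field Λ] [CharZero Λ] [Linear Λ C] [MonoidalLinear Λ C]
  {K : Type w} [Field K] [IsAlgClosed K] [Algebra Λ K] {R : SuperRealisation C K}

/-- **The eigenspaces of an additive functor.** -/
theorem eigen_equiv (hR : IsReal Λ R) {U : C} (hU : R.CPlus U) (F : C ⥤ ModuleCat.{x} Λ)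
    [F.Additive] [F.Linear Λ]
    (hnil : ∀ y : U ⟶ U, NumTriv y → IsNilpotent ((F.map y).hom : Module.End Λ (F.obj U)))
    (φ : End U) {r : Λ} (hT : StrongTate R (φ : U ⟶ U) r) :
    Nonempty ((Fin (finrank Λ ((eigen (φ : U ⟶ U) r).map (numIdeal Λ (𝟙_ C) U).mkQ)) →
      F.obj (𝟙_ C)) ≃ₗ[Λ] eigF F (φ : U ⟶ U) r) := by
  obtain ⟨g, hg, hφ⟩ := exists_poly_hom (Λ := Λ) hR hU φ
  obtain ⟨e, c₁, c₂, m, he1, he2, he3⟩ := exists_proj_poly hg r
  set ε' : End U := Polynomial.aeval φ e with hε'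
  obtain ⟨ε, hε⟩ : ∃ ε : U ⟶ U, ε = (ε' : U ⟶ U) := ⟨_, rfl⟩
  have hkill : ∀ c : Λ[X], R.H.map ((aeval φ (c * g) : End U) : U ⟶ U) = 0 := by
    intro c
    rw [map_mul, End.mul_def]
    have h1 : R.H.map (((aeval φ g : End U) : U ⟶ U) ≫ ((aeval φ c : End U) : U ⟶ U)) = 0 := by
      rw [R.H.map_comp, hφ, Limits.zero_comp]
    exact h1
  -- the basis
  have hfin := finite_num hR (Λ := Λ) (𝟙_ C) U
  set W := (eigen (φ : U ⟶ U) r).map (numIdeal Λ (𝟙_ C) U).mkQ with hW
  set n := finrank Λ W with hn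
  let w : Basis (Fin n) Λ W := Module.finBasis Λ W
  have hex : ∀ j, ∃ β ∈ eigen (φ : U ⟶ U) r, (numIdeal Λ (𝟙_ C) U).mkQ β = (w j : _) :=
    fun j => (w j).2
  choose β hβ1 hβ2 using hex
  have hexf : ∀ j, ∃ f : ((𝟙_ C ⟶ U) ⧸ numIdeal Λ (𝟙_ C) U) →ₗ[Λ] Λ,
      f ∘ₗ W.subtype = w.coord j := fun j => LinearMap.exists_extend (w.coord j)
  choose f hf using hexf
  choose γ₀ hγ₀ using fun j => exists_form hR U (f j)
  have hd0 : ∀ i j, β i ≫ γ₀ j = if i = j then 𝟙 (𝟙_ C) else 0 := by
    intro i j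
    rw [hγ₀]
    have h1 : f j (Submodule.Quotient.mk (β i)) = (f j ∘ₗ W.subtype) (w i) := by
      rw [LinearMap.comp_apply, Submodule.subtype_apply, ← hβ2]
      rfl
    rw [h1, hf, Basis.coord_apply, Basis.repr_self, Finsupp.single_apply]
    split_ifs with hij
    · rw [one_smul]
    · rw [zero_smul]
  have hβε : ∀ j, β j ≫ ε = β j := by
    intro j
    rw [hε, hε', comp_aeval (hβ1 j), he2, one_smul]
  have hεε : R.H.map ε ≫ R.H.map ε = R.H.map ε := by
    have h1 : ((ε' * ε' : End U) : U ⟶ U) = ε ≫ ε := by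
      rw [hε]
      rfl
    have h2 : ε' * ε' = ε' - aeval φ (c₁ * g) := by
      rw [hε', ← map_mul, he1, map_sub]
    rw [← R.H.map_comp, ← h1, h2]
    have h3 : R.H.map (((ε' : End U) : U ⟶ U) - ((aeval φ (c₁ * g) : End U) : U ⟶ U)) =
        R.H.map ε := by
      rw [R.H.map_sub, hkill, sub_zero, hε]
    exact h3
  let γ : Fin n → (U ⟶ 𝟙_ C) := fun j => ε ≫ γ₀ j
  have hd : ∀ i j, β i ≫ γ j = if i = j then 𝟙 (𝟙_ C) else 0 := by
    intro i j
    change β i ≫ ε ≫ γ₀ j = _
    rw [← Category.assoc, hβε, hd0]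
  set p : U ⟶ U := ∑ j, γ j ≫ β j with hp
  have hβp : ∀ i, β i ≫ p = β i := by
    intro i
    rw [hp, Preadditive.comp_sum]
    have h1 : ∀ j, β i ≫ γ j ≫ β j = if i = j then β j else 0 := by
      intro j
      rw [← Category.assoc, hd]
      split_ifs with hij
      · rw [Category.id_comp]
      · rw [Limits.zero_comp]
    rw [Finset.sum_congr rfl fun j _ => h1 j, Finset.sum_ite_eq, if_pos (Finset.mem_univ i)]
  have hεp : R.H.map ε ≫ R.H.map p = R.H.map p := by
    rw [hp, R.H.map_sum, Preadditive.comp_sum]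
    refine Finset.sum_congr rfl fun j _ => ?_
    change R.H.map ε ≫ R.H.map ((ε ≫ γ₀ j) ≫ β j) = R.H.map ((ε ≫ γ₀ j) ≫ β j)
    rw [Category.assoc, R.H.map_comp ε, ← Category.assoc, hεε]
  -- the realisations
  obtain ⟨v₀, hv₀⟩ := exists_gen R
  let b : Fin n → R.H.obj U := fun j => (R.H.map (β j)).hom v₀
  have hgb : ∀ i j, (R.H.map (γ i)).hom (b j) = if j = i then v₀ else 0 := by
    intro i j
    change (R.H.map (γ i)).hom ((R.H.map (β j)).hom v₀) = _
    rw [← map_ap, hd]
    split_ifs with hij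
    · rw [R.H.map_id]
      rfl
    · rw [R.H.map_zero]
      rfl
  set Φ : Module.End K (R.H.obj U) := (R.H.map (φ : U ⟶ U)).hom with hΦ
  set μ : K := algebraMap Λ K r with hμ
  have hbG : ∀ j, b j ∈ Module.End.maxGenEigenspace Φ μ := by
    intro j
    rw [Module.End.mem_maxGenEigenspace]
    refine ⟨1, ?_⟩
    rw [pow_one, LinearMap.sub_apply, LinearMap.smul_apply, Module.End.one_apply, sub_eq_zero]
    change (R.H.map (φ : U ⟶ U)).hom ((R.H.map (β j)).hom v₀) = μ • (R.H.map (β j)).hom v₀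
    rw [← map_ap, show β j ≫ (φ : U ⟶ U) = r • β j from hβ1 j, map_smul_ap hR]
  have hfinU := R.finite U
  have hli : LinearIndependent K (fun j => (⟨b j, hbG j⟩ : Module.End.maxGenEigenspace Φ μ)) := by
    rw [Fintype.linearIndependent_iff]
    intro c hc i
    have h1 := congrArg (fun z : Module.End.maxGenEigenspace Φ μ =>
      (R.H.map (γ i)).hom (z : R.H.obj U)) hc
    simp only [Submodule.coe_sum, Submodule.coe_smul, map_sum, map_smul, hgb,
      Submodule.coe_zero, map_zero, smul_ite, smul_zero, Finset.sum_ite_eq', Finset.mem_univ,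
      if_true] at h1
    exact (smul_eq_zero.1 h1).resolve_right hv₀
  have hcard : Fintype.card (Fin n) = finrank K (Module.End.maxGenEigenspace Φ μ) := by
    apply le_antisymm hli.fintype_card_le_finrank
    rw [Fintype.card_fin]
    exact hT
  have hspan : ∀ z ∈ Module.End.maxGenEigenspace Φ μ, ∃ c : Fin n → K, ∑ j, c j • b j = z := by
    intro z hz
    have h1 := hli.span_eq_top_of_card_eq_finrank' hcard
    have h2 : (⟨z, hz⟩ : Module.End.maxGenEigenspace Φ μ) ∈ Submodule.span K
        (Set.range fun j => (⟨b j, hbG j⟩ : Module.End.maxGenEigenspace Φ μ)) := by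
      rw [h1]
      exact Submodule.mem_top
    rw [Submodule.mem_span_range_iff_exists_fun] at h2
    obtain ⟨c, hc⟩ := h2
    refine ⟨c, ?_⟩
    have h3 := congrArg Subtype.val hc
    simpa only [Submodule.coe_sum, Submodule.coe_smul] using h3
  have hεG : ∀ v, (R.H.map ε).hom v ∈ Module.End.maxGenEigenspace Φ μ := by
    intro v
    rw [Module.End.mem_maxGenEigenspace]
    refine ⟨m, ?_⟩
    have h1 : Φ - μ • (1 : Module.End K (R.H.obj U)) =
        ((R.H.map ((φ - algebraMap Λ (End U) r : End U) : U ⟶ U)).hom :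
          Module.End K (R.H.obj U)) := by
      have h2 : ((φ - algebraMap Λ (End U) r : End U) : U ⟶ U) =
          (show U ⟶ U from φ) - r • 𝟙 U := by
        rw [Algebra.algebraMap_eq_smul_one]
        rfl
      rw [h2, R.H.map_sub, hR.lin, R.H.map_id]
      rfl
    have h4 : ((R.H.map ((φ - algebraMap Λ (End U) r : End U) : U ⟶ U)).hom :
          Module.End K (R.H.obj U)) = rho R U (φ - algebraMap Λ (End U) r) := rfl
    rw [h1, h4, ← map_pow]
    change (R.H.map (((φ - algebraMap Λ (End U) r) ^ m : End U) : U ⟶ U)).hom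
      ((R.H.map ε).hom v) = 0
    rw [← map_ap]
    have h3 : R.H.map (ε ≫ (((φ - algebraMap Λ (End U) r) ^ m : End U) : U ⟶ U)) = 0 := by
      have h5 : (φ - algebraMap Λ (End U) r) ^ m * ε' = aeval φ (c₂ * g) := by
        rw [hε', ← he3, map_mul, map_pow, map_sub, aeval_X, aeval_C]
      have h6 := hkill c₂
      rw [← h5] at h6
      rw [hε]
      exact h6
    rw [h3]
    rfl
  have hreal : R.H.map (ε - p) = 0 := by
    have h1 : R.H.map p = R.H.map ε := by
      ext v
      obtain ⟨c, hc⟩ := hspan _ (hεG v)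
      have h2 : (R.H.map p).hom v = (R.H.map p).hom ((R.H.map ε).hom v) := by
        conv_lhs => rw [← hεp]
        rfl
      have h3 : ∀ j, (R.H.map p).hom (b j) = b j := by
        intro j
        change (R.H.map p).hom ((R.H.map (β j)).hom v₀) = (R.H.map (β j)).hom v₀
        rw [← map_ap, hβp]
      change (R.H.map p).hom v = (R.H.map ε).hom v
      rw [h2, ← hc, map_sum]
      refine Finset.sum_congr rfl fun j _ => ?_
      rw [map_smul, h3]
    rw [R.H.map_sub, h1, sub_self]
  have hpp : p ≫ p = p := by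
    conv_lhs =>
      lhs
      rw [hp]
    rw [Preadditive.sum_comp]
    rw [hp]
    refine Finset.sum_congr rfl fun j _ => ?_
    rw [← hp, Category.assoc, hβp]
  -- the functor
  have hFε : ∀ x ∈ eigF F (φ : U ⟶ U) r, (F.map ε).hom x = x := by
    intro x hx
    rw [hε, hε', fun_aeval F hx, he2, one_smul]
  have hFβ : ∀ (j : Fin n) (y : F.obj (𝟙_ C)), (F.map (β j)).hom y ∈ eigF F (φ : U ⟶ U) r := by
    intro j y
    change (F.map (φ : U ⟶ U)).hom ((F.map (β j)).hom y) = r • (F.map (β j)).hom y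
    have h1 : F.map (β j) ≫ F.map (φ : U ⟶ U) = r • F.map (β j) := by
      rw [← F.map_comp, show β j ≫ (φ : U ⟶ U) = r • β j from hβ1 j, F.map_smul]
    have h2 := congrArg (fun z => z.hom y) h1
    exact h2
  have hpx : ∀ x : F.obj U, (F.map p).hom x = ∑ j, (F.map (β j)).hom ((F.map (γ j)).hom x) := by
    intro x
    rw [hp, F.map_sum, ModuleCat.hom_sum, LinearMap.sum_apply]
    refine Finset.sum_congr rfl fun j _ => ?_
    rw [F.map_comp]
    rfl
  have hpE : ∀ x : F.obj U, (F.map p).hom x ∈ eigF F (φ : U ⟶ U) r := by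
    intro x
    rw [hpx]
    exact Submodule.sum_mem _ fun j _ => hFβ j _
  have hppx : ∀ x : F.obj U, (F.map p).hom ((F.map p).hom x) = (F.map p).hom x := by
    intro x
    have h1 : F.map p ≫ F.map p = F.map p := by rw [← F.map_comp, hpp]
    exact congrArg (fun z => z.hom x) h1
  obtain ⟨k, hk⟩ := hnil (ε - p) (numTriv_of_map hR hreal)
  have hid : ∀ x ∈ eigF F (φ : U ⟶ U) r, (F.map p).hom x = x := by
    intro x hx
    have h0 : ∀ z ∈ eigF F (φ : U ⟶ U) r,
        ((F.map (ε - p)).hom : Module.End Λ (F.obj U)) z = z - (F.map p).hom z := by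
      intro z hz
      have h1 : (F.map (ε - p)).hom z = (F.map ε).hom z - (F.map p).hom z := by
        rw [F.map_sub]
        rfl
      change (F.map (ε - p)).hom z = _
      rw [h1, hFε z hz]
    have hx' : x - (F.map p).hom x ∈ eigF F (φ : U ⟶ U) r := Submodule.sub_mem _ hx (hpE x)
    have h1 : ((F.map (ε - p)).hom : Module.End Λ (F.obj U)) (x - (F.map p).hom x) =
        x - (F.map p).hom x := by
      rw [h0 _ hx', map_sub, hppx, sub_self, sub_zero]
    have h2 : ∀ k : ℕ, (((F.map (ε - p)).hom : Module.End Λ (F.obj U)) ^ k)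
        (x - (F.map p).hom x) = x - (F.map p).hom x := by
      intro k
      induction k with
      | zero => rfl
      | succ k ih => rw [pow_succ, Module.End.mul_apply, h1, ih]
    have h3 := h2 k
    rw [hk] at h3
    exact (sub_eq_zero.1 h3.symm).symm
  have hγβ : ∀ (i j : Fin n) (y : F.obj (𝟙_ C)),
      (F.map (γ i)).hom ((F.map (β j)).hom y) = if j = i then y else 0 := by
    intro i j y
    have h1 : F.map (β j) ≫ F.map (γ i) = F.map (if j = i then 𝟙 (𝟙_ C) else 0) := by
      rw [← F.map_comp, hd]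
    have h2 : (F.map (γ i)).hom ((F.map (β j)).hom y) =
        (F.map (if j = i then 𝟙 (𝟙_ C) else 0)).hom y := congrArg (fun z => z.hom y) h1
    rw [h2]
    split_ifs with hij
    · rw [F.map_id]
      rfl
    · rw [F.map_zero]
      rfl
  refine ⟨LinearEquiv.ofLinearMap
    { toFun := fun y => ⟨∑ j, (F.map (β j)).hom (y j), Submodule.sum_mem _ fun j _ => hFβ j _⟩
      map_add' := fun y z => Subtype.ext (by
        simp only [Pi.add_apply, map_add, Finset.sum_add_distrib, Submodule.coe_add])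
      map_smul' := fun c y => Subtype.ext (by
        simp only [Pi.smul_apply, map_smul, Finset.smul_sum, RingHom.id_apply,
          Submodule.coe_smul]) }
    { toFun := fun x i => (F.map (γ i)).hom (x : F.obj U)
      map_add' := fun x y => by
        ext i
        simp only [Submodule.coe_add, map_add, Pi.add_apply]
      map_smul' := fun c x => by
        ext i
        simp only [Submodule.coe_smul, map_smul, Pi.smul_apply, RingHom.id_apply] }
    ?_ ?_⟩
  · refine LinearMap.ext fun x => Subtype.ext ?_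
    change ∑ j, (F.map (β j)).hom ((F.map (γ j)).hom (x : F.obj U)) = (x : F.obj U)
    rw [← hpx]
    exact hid _ x.2
  · refine LinearMap.ext fun y => funext fun i => ?_
    change (F.map (γ i)).hom (∑ j, (F.map (β j)).hom (y j)) = y i
    rw [map_sum]
    simp only [hγβ, Finset.sum_ite_eq', Finset.mem_univ, if_true]

/-- The rank of the space of the classes on `U` in the `r`-eigenspace of `φ` modulo numerical
equivalence. -/
noncomputable def eigRank {U : C} (φ : U ⟶ U) (r : Λ) : ℕ :=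
  finrank Λ ((eigen φ r).map (numIdeal Λ (𝟙_ C) U).mkQ)

/-- The `r`-eigenspace of `F (φ)` is isomorphic to a power of `F (1)`, the exponent is the rank of the
classes in the `r`-eigenspace modulo numerical equivalence. -/
def EigenPower (F : C ⥤ ModuleCat.{x} Λ) {U : C} (φ : U ⟶ U) (r : Λ) : Prop :=
  Nonempty ((Fin (eigRank φ r) → F.obj (𝟙_ C)) ≃ₗ[Λ] eigF F φ r)

/-- The law for `F` on the powers of `T`. -/
def PowerLaw (R : SuperRealisation C K) (T : C) (F : C ⥤ ModuleCat.{x} Λ) : Prop :=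
  ∃ N : ℕ∞, RatioTo Λ T (fun n => dimE Λ (F.obj (tp T n))) N ∧
    (N = 0 ↔ ∀ n, Subsingleton (F.obj (tp T n))) ∧
    (N ≠ ⊤ → ∀ (n : ℕ) (φ : tp T n ⟶ tp T n) (r : Λ), StrongTate R φ r → EigenPower F φ r)

/-- The law for `F` on the products of `B` with the powers of `T`, with the gap. -/
def ProductLaw (R : SuperRealisation C K) (T : C) (F : C ⥤ ModuleCat.{x} Λ) (B : C) : Prop :=
  (∃ N : ℕ∞, RatioTo Λ T (funDim F B T) N ∧ (N = 0 ↔ ∀ n, Subsingleton (F.obj (B ⊗ tp T n)))) ∧
    ∀ m n : ℕ, ¬ Subsingleton (F.obj (B ⊗ tp T m)) →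
      128 * (m + 1) ^ 2 * bt R T ^ (2 * m + 6) ≤ n →
        (numRank Λ (tp T n) : ℕ∞) ≤ 2 * funDim F B T n ∧
        ((bt R T ^ (2 * n) : ℕ) : ℕ∞) ≤
          (2 * (n + 1) ^ (bt R T ^ 2) : ℕ) * funDim F B T (n + n)

/-- **The law for an additive functor and its eigenspaces.** -/
theorem eig_law {T : C} [ExactPairing T T] (h : IsPow Λ R T) (F : C ⥤ ModuleCat.{x} Λ)
    [F.Additive] [F.Linear Λ] : PowerLaw R T F ∧ ∀ B : C, ProductLaw R T F B := by
  refine ⟨?_, fun B => ⟨?_, ?_⟩⟩
  · obtain ⟨N, h1, h2, h3⟩ := law h F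
    exact ⟨N, h1, h2, fun hN n φ r hr => eigen_equiv h.real (cplus_tp h.real h.cplus n) F
      (((h3 hN).1 n).2.2) (φ : End (tp T n)) hr⟩
  · obtain ⟨N, h1, h2, -⟩ := law h (tensorLeft B ⋙ F)
    exact ⟨N, h1, h2⟩
  · intro m n hne hn
    have h1 : ∀ n : ℕ, 128 * (m + 1) ^ 2 * bt R T ^ (2 * m + 6) ≤ n →
        (numRank Λ (tp T n) : ℕ∞) ≤ 2 * funDim F B T n := by
      intro n hn
      by_contra hcon
      rw [not_le] at hcon
      obtain ⟨h3, h4⟩ := dimE_lt hcon
      exact hne (explicit_criterion h (tensorLeft B ⋙ F) hn h3 h4)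
    exact ⟨h1 n hn, growth_of h (h1 (n + n) (hn.trans (Nat.le_add_left n n)))⟩

end Pool.Agent.U226.FX
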