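import Pool.Agent.U226.FX.Nc

/-!
# The law with a fixed factor for homological and numerical equivalence
-/

set_option autoImplicit false
set_option linter.unusedSectionVars false

open CategoryTheory Limits MonoidalCategory Module Filter Topology
open Pool.Agent.Y112.SR Pool.Agent.Y112.KD Pool.Agent.N64.AF
open scoped ENNReal

namespace Pool.Agent.U226.FX

universe v u w t x

variable {C : Type u} [Category.{v} C] [Preadditive C] [MonoidalCategory C]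
  [MonoidalPreadditive C] [SymmetricCategory C] [RightRigidCategory C]
  {Λ : Type t} [Field Λ] [CharZero Λ] [Linear Λ C] [MonoidalLinear Λ C]
  {K : Type w} [Field K] [IsAlgClosed K] [Algebra Λ K] {R : SuperRealisation C K}

lemma hom_stable (hR : IsReal Λ R) : Stable (fun Y : C => homSub hR (𝟙_ C) Y) := by
  intro Y Z f a ha
  change R.H.map (a ≫ f) = 0
  rw [Functor.map_comp, show R.H.map a = 0 from ha, zero_comp]

/-- The dimension of the space of the numerically trivial classes on `B ⊗ T ^ n` modulo the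
homologically trivial classes. -/
noncomputable def homDefect (hR : IsReal Λ R) (B T : C) (n : ℕ) : ℕ∞ :=
  dimRel (fun Y : C => homSub hR (𝟙_ C) Y) (fun Y : C => numIdeal Λ (𝟙_ C) Y) B T n

/-- If the ratio is finite and there is a class on `B ⊗ T ^ p` with nonzero realisation then
homological and numerical equivalence agree on the powers of `T`. -/
theorem hom_of_finite (hR : IsReal Λ R) {T B : C} {N : ℕ∞} (hN' : N ≠ ⊤)
    (hN : ∀ k : ℕ, N = k → ∀ (a b : ℕ) (f : tp T a ⟶ tp T b), NumPow T k f →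
        ∀ x : 𝟙_ C ⟶ B ⊗ tp T a, NumTriv x → x ≫ (B ◁ f) ∈ homSub hR (𝟙_ C) (B ⊗ tp T b))
    {p : ℕ} {β : 𝟙_ C ⟶ B ⊗ tp T p} (hβ : R.H.map β ≠ 0) {q : ℕ} {α : 𝟙_ C ⟶ tp T q}
    (hα : NumTriv α) : R.H.map α = 0 := by
  by_contra hne
  obtain ⟨k, rfl⟩ := ENat.ne_top_iff_exists.1 hN'
  obtain ⟨i, y, hy, rfl⟩ := exists_append hR T hα p
  have h0 : R.H.map (β ≫ (B ◁ ((ρ_ (tp T p)).inv ≫ (tp T p ◁ α) ≫ i.hom))) ≠ 0 := by
    intro h0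
    apply map_append_ne R hβ hne
    have h2 := append_apply i α β (𝟙 _)
    rw [Category.comp_id] at h2
    rw [← h2, ← Category.assoc, Functor.map_comp, Functor.map_comp, h0]
    simp
  obtain ⟨b', f, hf, hf'⟩ := iterate_hom hR hα hne _ h0 k
  refine hf' (hN k rfl _ _ f hf _ ?_)
  have h2 := NumTriv.comp hR (NumTriv.whiskerLeft hR hy B) β (𝟙 _)
  rw [Category.comp_id] at h2
  exact h2

/-- **The law with a fixed factor for homological and numerical equivalence.** -/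
theorem hom_fixed_nc (hR : IsReal Λ R) {T : C} (hT : R.CPlus T) (hb : 0 < bt R T) (B : C) :
    ∃ N d : ℕ∞, RatioTo Λ (T ⊗ Tᘁ) (homDefect hR B (T ⊗ Tᘁ)) N ∧
      RatioTo Λ (T ⊗ Tᘁ) (rankSeq Λ B (T ⊗ Tᘁ)) d ∧
      (N = 0 ↔ ∀ (n : ℕ) (α : 𝟙_ C ⟶ B ⊗ tp (T ⊗ Tᘁ) n), NumTriv α → R.H.map α = 0) ∧
      (d = 0 ↔ ∀ (n : ℕ) (α : 𝟙_ C ⟶ B ⊗ tp (T ⊗ Tᘁ) n), NumTriv α) ∧
      (R.CPlus B → d ≤ bt R B) ∧
      (d ≠ 0 → d ≠ ⊤ → Quot (homDefect hR B (T ⊗ Tᘁ)) (rankSeq Λ B (T ⊗ Tᘁ))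
        ((N : ℝ≥0∞) / d)) ∧
      (∀ (p : ℕ) (β : 𝟙_ C ⟶ B ⊗ tp (T ⊗ Tᘁ) p), R.H.map β ≠ 0 → N ≠ ⊤ →
        ∀ (n : ℕ) (α : 𝟙_ C ⟶ tp (T ⊗ Tᘁ) n), NumTriv α → R.H.map α = 0) ∧
      ∀ (m n : ℕ) (α : 𝟙_ C ⟶ B ⊗ tp (T ⊗ Tᘁ) m), NumTriv α → R.H.map α ≠ 0 →
        128 * (m + 1) ^ 2 * bt R T ^ (4 * m + 12) ≤ n →
          (numRank Λ (tp (T ⊗ Tᘁ) n) : ℕ∞) ≤ 2 * homDefect hR B (T ⊗ Tᘁ) n ∧
          ((bt R T ^ (2 * n) : ℕ) : ℕ∞) ≤
            (2 * (n + 1) ^ (bt R T ^ 2) : ℕ) * homDefect hR B (T ⊗ Tᘁ) n := by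
  obtain ⟨N, d, h1, h2, h3, h4, h5, h6, h7, h8⟩ := main_nc hR hT hb (hom_stable hR) B
  exact ⟨N, d, h1, h2, h3, h4, h5, h6,
    fun p β hβ hN n α hα => hom_of_finite hR hN h8 hβ hα,
    fun m n α hα hα' hn => h7 m n hn α hα hα'⟩

/-- The version for a self-dual object. -/
theorem hom_fixed {T : C} [ExactPairing T T] (h : IsPow Λ R T) (B : C) :
    ∃ N d : ℕ∞, RatioTo Λ T (homDefect h.real B T) N ∧ RatioTo Λ T (rankSeq Λ B T) d ∧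
      (N = 0 ↔ ∀ (n : ℕ) (α : 𝟙_ C ⟶ B ⊗ tp T n), NumTriv α → R.H.map α = 0) ∧
      (d = 0 ↔ ∀ (n : ℕ) (α : 𝟙_ C ⟶ B ⊗ tp T n), NumTriv α) ∧
      (R.CPlus B → d ≤ bt R B) ∧
      (d ≠ 0 → d ≠ ⊤ → Quot (homDefect h.real B T) (rankSeq Λ B T) ((N : ℝ≥0∞) / d)) ∧
      (∀ (p : ℕ) (β : 𝟙_ C ⟶ B ⊗ tp T p), R.H.map β ≠ 0 → N ≠ ⊤ →
        ∀ (n : ℕ) (α : 𝟙_ C ⟶ tp T n), NumTriv α → R.H.map α = 0) ∧
      ∀ (m n : ℕ) (α : 𝟙_ C ⟶ B ⊗ tp T m), NumTriv α → R.H.map α ≠ 0 →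
        128 * (m + 1) ^ 2 * bt R T ^ (2 * m + 6) ≤ n →
          (numRank Λ (tp T n) : ℕ∞) ≤ 2 * homDefect h.real B T n ∧
          ((bt R T ^ (2 * n) : ℕ) : ℕ∞) ≤
            (2 * (n + 1) ^ (bt R T ^ 2) : ℕ) * homDefect h.real B T (n + n) := by
  obtain ⟨N, d, h1, h2, h3, h4, h5, h6, h7, h8⟩ := main h (hom_stable h.real) B
  refine ⟨N, d, h1, h2, h3, ?_, h4, h6,
    fun p β hβ hN n α hα => hom_of_finite h.real hN h8 hβ hα, ?_⟩
  · constructor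
    · intro hd n α
      by_contra hα
      exact h5.1 ⟨n, α, hα⟩ hd
    · intro hall
      by_contra hd
      obtain ⟨p, β, hβ⟩ := h5.2 hd
      exact hβ (hall p β)
  · intro m n α hα hα' hn
    have k1 := h7 m n hn α hα hα'
    have k2 := h7 m (n + n) (hn.trans (Nat.le_add_left n n)) α hα hα'
    exact ⟨k1, growth_of h k2⟩

end Pool.Agent.U226.FX
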