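import Pool.Agent.U226.FX.Main
import Pool.Agent.N64.AF.L1

/-!
# The law with a fixed factor for an ideal which contains the products of homologically trivial
morphisms
-/

set_option autoImplicit false
set_option linter.unusedSectionVars false

open CategoryTheory Limits MonoidalCategory Module Filter Topology
open Pool.Agent.Y112.SR Pool.Agent.Y112.KD Pool.Agent.N64.AF
open scoped ENNReal

namespace Pool.Agent.U226.FX

universe v u w t x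

section Defs

variable {C : Type u} [Category.{v} C] [Preadditive C] [MonoidalCategory C]
  [MonoidalPreadditive C] [SymmetricCategory C] [RightRigidCategory C]
  [Linear ℚ C] [MonoidalLinear ℚ C] {K : Type w} [Field K]

/-- The kernels of the Abel-Jacobi maps: a tensor ideal `ker` of homologically trivial morphisms
which contains the compositions of two homologically trivial morphisms. -/
structure AJKernel (R : SuperRealisation C K) where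
  ker : ∀ Y Z : C, Submodule ℚ (Y ⟶ Z)
  pre : ∀ {W Y Z : C} (g : W ⟶ Y) (f : Y ⟶ Z), f ∈ ker Y Z → g ≫ f ∈ ker W Z
  post : ∀ {W Y Z : C} (f : W ⟶ Y) (g : Y ⟶ Z), f ∈ ker W Y → f ≫ g ∈ ker W Z
  left : ∀ (W : C) {Y Z : C} (f : Y ⟶ Z), f ∈ ker Y Z → W ◁ f ∈ ker (W ⊗ Y) (W ⊗ Z)
  right : ∀ (W : C) {Y Z : C} (f : Y ⟶ Z), f ∈ ker Y Z → f ▷ W ∈ ker (Y ⊗ W) (Z ⊗ W)
  hom : ∀ {Y Z : C} (f : Y ⟶ Z), f ∈ ker Y Z → R.H.map f = 0
  comp : ∀ {W Y Z : C} (f : W ⟶ Y) (g : Y ⟶ Z), R.H.map f = 0 → R.H.map g = 0 →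
    f ≫ g ∈ ker W Z

/-- The dimension of the kernel on `B ⊗ T ^ n`. -/
noncomputable def kerDim {R : SuperRealisation C K} (A : AJKernel R) (B T : C) (n : ℕ) : ℕ∞ :=
  dimE ℚ (A.ker (𝟙_ C) (B ⊗ tp T n))

end Defs

variable {C : Type u} [Category.{v} C] [Preadditive C] [MonoidalCategory C]
  [MonoidalPreadditive C] [SymmetricCategory C] [RightRigidCategory C]
  [Linear ℚ C] [MonoidalLinear ℚ C]
  {K : Type w} [Field K] [IsAlgClosed K] [Algebra ℚ K] {R : SuperRealisation C K}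

lemma ker_stable (A : AJKernel R) : Stable (fun Y : C => A.ker (𝟙_ C) Y) :=
  fun _ _ f _ ha => A.post _ f ha

lemma bot_stable : Stable (fun Y : C => (⊥ : Submodule ℚ (𝟙_ C ⟶ Y))) := by
  intro Y Z f a ha
  rw [Submodule.mem_bot] at ha ⊢
  rw [ha, zero_comp]

lemma dimE_bot_rel {V : Type v} [AddCommGroup V] [Module ℚ V] (I : Submodule ℚ V) :
    dimE ℚ (Rel (⊥ : Submodule ℚ V) I) = dimE ℚ I := by
  have e : Rel (⊥ : Submodule ℚ V) I ≃ₗ[ℚ] I :=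
    Submodule.quotEquivOfEqBot _ (by
      rw [eq_bot_iff]
      intro x hx
      have h1 : (x : V) = 0 := hx
      rw [Submodule.mem_bot]
      exact Subtype.ext h1)
  rw [dimE, dimE, LinearEquiv.rank_eq e]

lemma dimRel_ker (A : AJKernel R) (B T : C) :
    dimRel (fun Y : C => (⊥ : Submodule ℚ (𝟙_ C ⟶ Y))) (fun Y : C => A.ker (𝟙_ C) Y) B T =
      kerDim A B T := by
  funext n
  exact dimE_bot_rel _

lemma numPow_left (hR : IsReal ℚ R) {T : C} (p : ℕ) (k : ℕ) : ∀ {c b : ℕ}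
    {h : tp T c ⟶ tp T b}, NumPow T k h → ∀ {c' b' : ℕ} (i : tp T c' ⟶ tp T p ⊗ tp T c)
      (j : tp T p ⊗ tp T b ⟶ tp T b'), NumPow T k (i ≫ (tp T p ◁ h) ≫ j) := by
  induction k with
  | zero => intros; trivial
  | succ k ih =>
    rintro c b h ⟨d, g, y, hg, hy, rfl⟩ c' b' i j
    obtain ⟨e, -⟩ := exists_tp_iso T p d
    refine ⟨p + d, i ≫ (tp T p ◁ g) ≫ e.hom, e.inv ≫ (tp T p ◁ y) ≫ j, ih hg i e.hom, ?_, ?_⟩
    · exact NumTriv.comp hR (NumTriv.whiskerLeft hR hy _) _ _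
    · simp only [MonoidalCategory.whiskerLeft_comp, Category.assoc, Iso.hom_inv_id_assoc]

/-- If the ratio is a number `N` then the compositions of a morphism in the kernel and `N`
numerically trivial morphisms are zero. -/
theorem ker_vanish_one (hR : IsReal ℚ R) {T : C} (A : AJKernel R) {B : C} {N : ℕ}
    (hN : ∀ (a b : ℕ) (f : tp T a ⟶ tp T b), NumPow T N f →
        ∀ x ∈ A.ker (𝟙_ C) (B ⊗ tp T a), x ≫ (B ◁ f) = 0)
    {p : ℕ} {β : 𝟙_ C ⟶ B ⊗ tp T p} (hβ : ¬ NumTriv β) {c b : ℕ} (g : 𝟙_ C ⟶ tp T c)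
    (hg : g ∈ A.ker (𝟙_ C) (tp T c)) (h : tp T c ⟶ tp T b) (hh : NumPow T N h) : g ≫ h = 0 := by
  obtain ⟨β', hβ'⟩ := exists_dual hR hβ
  obtain ⟨i, -⟩ := exists_tp_iso T p c
  obtain ⟨j, -⟩ := exists_tp_iso T p b
  have h1 := hN _ _ (i.inv ≫ (tp T p ◁ h) ≫ j.hom) (numPow_left hR p N hh i.inv j.hom)
    (β ≫ (B ◁ ((ρ_ (tp T p)).inv ≫ (tp T p ◁ g) ≫ i.hom)))
    (A.pre _ _ (A.left _ _ (A.pre _ _ (A.post _ _ (A.left _ _ hg)))))
  have h2 : β ≫ (B ◁ ((ρ_ (tp T p)).inv ≫ (tp T p ◁ (g ≫ h)) ≫ j.hom)) = 0 := by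
    rw [← h1]
    simp only [MonoidalCategory.whiskerLeft_comp, Category.assoc]
    rw [← MonoidalCategory.whiskerLeft_comp_assoc B i.hom i.inv, Iso.hom_inv_id,
      MonoidalCategory.whiskerLeft_id, Category.id_comp]
  have h3 := append_apply j (g ≫ h) β β'
  rw [h2, zero_comp, hβ'] at h3
  have h5 : g ≫ h = ((𝟙 (𝟙_ C)) ≫ (ρ_ (𝟙_ C)).inv ≫ (𝟙_ C ◁ (g ≫ h))) ≫ (λ_ _).hom := by
    rw [Category.id_comp, Category.assoc, leftUnitor_naturality, ← unitors_inv_equal,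
      Iso.inv_hom_id_assoc]
  rw [h5, ← h3, zero_comp]

theorem ker_vanish (hR : IsReal ℚ R) {T : C} [ExactPairing T T] (A : AJKernel R) {B : C} {N : ℕ}
    (hN : ∀ (a b : ℕ) (f : tp T a ⟶ tp T b), NumPow T N f →
        ∀ x ∈ A.ker (𝟙_ C) (B ⊗ tp T a), x ≫ (B ◁ f) = 0)
    {p : ℕ} {β : 𝟙_ C ⟶ B ⊗ tp T p} (hβ : ¬ NumTriv β) (a : ℕ) : ∀ {c b : ℕ}
    (g : tp T a ⟶ tp T c) (_ : g ∈ A.ker (tp T a) (tp T c)) (h : tp T c ⟶ tp T b)
    (_ : NumPow T N h), g ≫ h = 0 := by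
  induction a with
  | zero => exact fun g hg h hh => ker_vanish_one hR A hN hβ g hg h hh
  | succ a ih =>
    intro c b g hg h hh
    have h1 : Pool.Agent.N645.AFK1.cur ℚ T (tp T a) (tp T b) (g ≫ h) = 0 := by
      rw [Pool.Agent.N645.AFK1.cur_eq, comp_whiskerRight]
      have h2 := ih (c := c + 1) (b := b + 1) (((ρ_ _).inv ≫ (_ ◁ η_ _ _) ≫ (α_ _ _ _).inv) ≫ g ▷ T)
        (A.pre _ _ (A.right T g hg)) (h ▷ T) (Pool.Agent.N645.AFK1.numPow_whisker hR N hh)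
      rw [Category.assoc] at h2
      exact h2
    exact (LinearEquiv.map_eq_zero_iff _).1 h1

/-- A power of a homologically trivial endomorphism. -/
theorem ker_pow (hR : IsReal ℚ R) {T : C} [ExactPairing T T] (A : AJKernel R) {B : C} {N : ℕ}
    (hN : ∀ (a b : ℕ) (f : tp T a ⟶ tp T b), NumPow T N f →
        ∀ x ∈ A.ker (𝟙_ C) (B ⊗ tp T a), x ≫ (B ◁ f) = 0)
    {p : ℕ} {β : 𝟙_ C ⟶ B ⊗ tp T p} (hβ : ¬ NumTriv β) (n : ℕ) (y : End (tp T n))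
    (hy : R.H.map (y : tp T n ⟶ tp T n) = 0) : y ^ (N + 2) = 0 := by
  have h1 := ker_vanish hR A hN hβ n (y ≫ y : tp T n ⟶ tp T n) (A.comp _ _ hy hy)
    ((y ^ N : End (tp T n)) : tp T n ⟶ tp T n) (numPow_pow y (numTriv_of_map hR hy) N)
  rw [pow_add, pow_two]
  exact h1

lemma map_tpow_succ {T : C} {q : ℕ} {α : 𝟙_ C ⟶ tp T q} (hα : R.H.map α = 0) (k : ℕ) :
    R.H.map (tpow α (k + 1)) = 0 := by
  change R.H.map (tpow α k ≫ (ρ_ (tp (tp T q) k)).inv ≫ (tp (tp T q) k ◁ α)) = 0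
  rw [Functor.map_comp, Functor.map_comp, Functor.Monoidal.map_whiskerLeft, hα]
  simp

/-- Homologically trivial classes are smash-nilpotent. -/
theorem ker_tpow (hR : IsReal ℚ R) {T : C} [ExactPairing T T] (A : AJKernel R) {B : C} {N : ℕ}
    (hN : ∀ (a b : ℕ) (f : tp T a ⟶ tp T b), NumPow T N f →
        ∀ x ∈ A.ker (𝟙_ C) (B ⊗ tp T a), x ≫ (B ◁ f) = 0)
    {p : ℕ} {β : 𝟙_ C ⟶ B ⊗ tp T p} (hβ : ¬ NumTriv β) {q : ℕ} (α : 𝟙_ C ⟶ tp T q)
    (hα : R.H.map α = 0) : tpow α (N + 2) = 0 := by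
  -- the products with `α`
  have key : ∀ k : ℕ, ∃ (b : ℕ) (i : tp (tp T q) 2 ≅ tp T (q + q)) (h : tp T (q + q) ⟶ tp T b)
      (j : tp (tp T q) (2 + k) ≅ tp T b), NumPow T k h ∧
      tpow α (2 + k) ≫ j.hom = (tpow α 2 ≫ i.hom) ≫ h := by
    intro k
    induction k with
    | zero =>
      obtain ⟨i, -⟩ := exists_tp_iso T q q
      have i' : tp (tp T q) 2 ≅ tp T (q + q) :=
        whiskerRightIso (λ_ (tp T q)) (tp T q) ≪≫ i
      exact ⟨q + q, i', 𝟙 _, i', trivial, (Category.comp_id _).symm⟩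
    | succ k ih =>
      obtain ⟨b, i, h, j, hh, e⟩ := ih
      obtain ⟨l, -⟩ := exists_tp_iso T b q
      refine ⟨b + q, i, h ≫ (ρ_ (tp T b)).inv ≫ (tp T b ◁ α) ≫ l.hom,
        whiskerRightIso j (tp T q) ≪≫ l, ⟨b, h, _, hh, ?_, rfl⟩, ?_⟩
      · exact NumTriv.comp hR (NumTriv.whiskerLeft hR (numTriv_of_map hR hα) _) _ _
      · change (tpow α (2 + k) ≫ (ρ_ (tp (tp T q) (2 + k))).inv ≫ (tp (tp T q) (2 + k) ◁ α)) ≫
          (j.hom ▷ tp T q) ≫ l.hom = _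
        rw [Category.assoc, Category.assoc, whisker_exchange_assoc,
          ← rightUnitor_inv_naturality_assoc, ← Category.assoc (tpow α (2 + k)), e]
        simp only [Category.assoc]
  obtain ⟨b, i, h, j, hh, e⟩ := key N
  have h1 := ker_vanish hR A hN hβ 0 (tpow α 2 ≫ i.hom) (A.post _ _ ?_) h hh
  · have h2 : tpow α (2 + N) ≫ j.hom = 0 := e.trans h1
    have h3 : tpow α (2 + N) = (tpow α (2 + N) ≫ j.hom) ≫ j.inv := by
      rw [Category.assoc, Iso.hom_inv_id, Category.comp_id]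
    rw [Nat.add_comm N 2, h3, h2, zero_comp]
  · change tpow α 1 ≫ (ρ_ (tp (tp T q) 1)).inv ≫ (tp (tp T q) 1 ◁ α) ∈ _
    refine A.comp _ _ (map_tpow_succ hα 0) ?_
    rw [Functor.map_comp, Functor.Monoidal.map_whiskerLeft, hα]
    simp

/-- **The law with a fixed factor for the kernels of the Abel-Jacobi maps.** -/
theorem ker_law [IsIdempotentComplete C] {T : C} [ExactPairing T T] (h : IsPow ℚ R T)
    (A : AJKernel R) (B : C) : ∃ N d : ℕ∞, RatioTo ℚ T (kerDim A B T) N ∧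
      RatioTo ℚ T (rankSeq ℚ B T) d ∧
      (N = 0 ↔ ∀ (n : ℕ), ∀ α ∈ A.ker (𝟙_ C) (B ⊗ tp T n), α = 0) ∧
      (d = 0 ↔ ∀ (n : ℕ) (α : 𝟙_ C ⟶ B ⊗ tp T n), NumTriv α) ∧
      (R.CPlus B → d ≤ bt R B) ∧
      (d ≠ 0 → ∀ k : ℕ, N = k →
        (∀ (n : ℕ) (y : End (tp T n)), R.H.map (y : tp T n ⟶ tp T n) = 0 → y ^ (k + 2) = 0) ∧
        (∀ (n : ℕ) (α : 𝟙_ C ⟶ tp T n), R.H.map α = 0 → tpow α (k + 2) = 0) ∧
        Pool.Agent.R905.IsKimuraFinite T) ∧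
      ∀ (m n : ℕ), ∀ α ∈ A.ker (𝟙_ C) (B ⊗ tp T m), α ≠ 0 →
        128 * (m + 1) ^ 2 * bt R T ^ (2 * m + 6) ≤ n →
          (numRank ℚ (tp T n) : ℕ∞) ≤ 2 * kerDim A B T n ∧
          ((bt R T ^ (2 * n) : ℕ) : ℕ∞) ≤
            (2 * (n + 1) ^ (bt R T ^ 2) : ℕ) * kerDim A B T (n + n) := by
  obtain ⟨N, h1, h2, h3, h4⟩ := fix_law h bot_stable (ker_stable A) B
  obtain ⟨d, k1, k2, k3⟩ := num_law h B
  rw [dimRel_ker] at h1
  have h3' : ∀ m n : ℕ, ∀ α ∈ A.ker (𝟙_ C) (B ⊗ tp T m), α ≠ 0 →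
      128 * (m + 1) ^ 2 * bt R T ^ (2 * m + 6) ≤ n →
        (numRank ℚ (tp T n) : ℕ∞) ≤ 2 * kerDim A B T n := by
    intro m n α hα hα' hn
    by_contra hcon
    rw [not_le] at hcon
    rw [dimRel_ker] at h3
    have := h3 m n hn hcon hα
    exact hα' ((Submodule.mem_bot ℚ).1 this)
  refine ⟨N, d, h1, k1, ?_, ?_, k2, ?_, ?_⟩
  · rw [h2]
    refine forall_congr' fun n => ⟨fun h α hα => (Submodule.mem_bot ℚ).1 (h hα),
      fun h α hα => (Submodule.mem_bot ℚ).2 (h α hα)⟩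
  · constructor
    · intro hd n α
      by_contra hα
      exact k3.1 ⟨n, α, hα⟩ hd
    · intro hall
      by_contra hd
      obtain ⟨p, β, hβ⟩ := k3.2 hd
      exact hβ (hall p β)
  · intro hd k hk
    obtain ⟨p, β, hβ⟩ := k3.2 hd
    have hN : ∀ (a b : ℕ) (f : tp T a ⟶ tp T b), NumPow T k f →
        ∀ x ∈ A.ker (𝟙_ C) (B ⊗ tp T a), x ≫ (B ◁ f) = 0 :=
      fun a b f hf x hx => (Submodule.mem_bot ℚ).1 (h4 k hk a b f hf x hx)
    refine ⟨fun n y hy => ker_pow h.real A hN hβ n y hy,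
      fun n α hα => ker_tpow h.real A hN hβ α hα,
      kimura_of_nil h.real h.cplus fun n y hy => ⟨k + 2, ker_pow h.real A hN hβ n y hy⟩⟩
  · intro m n α hα hα' hn
    exact ⟨h3' m n α hα hα' hn,
      growth_of h (h3' m (n + n) α hα hα' (hn.trans (Nat.le_add_left n n)))⟩

end Pool.Agent.U226.FX
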