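import Pool.Agent.U226.FX.Num

/-!
# The law with a fixed factor: summary
-/

set_option autoImplicit false
set_option linter.unusedSectionVars false

open CategoryTheory Limits MonoidalCategory Module Filter Topology
open Pool.Agent.Y112.SR Pool.Agent.Y112.KD Pool.Agent.N64.AF
open scoped ENNReal

namespace Pool.Agent.U226.FX

universe v u w t x

variable {C : Type u} [Category.{v} C] [Preadditive C] [MonoidalCategory C]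
  [MonoidalPreadditive C] [SymmetricCategory C] [RightRigidCategory C]
  {Λ : Type t} [Field Λ] [CharZero Λ] [Linear Λ C] [MonoidalLinear Λ C]
  {K : Type w} [Field K] [IsAlgClosed K] [Algebra Λ K] {R : SuperRealisation C K}
  {J I : ∀ Y : C, Submodule Λ (𝟙_ C ⟶ Y)}

/-- The quotients of the two sequences converge to `c`. -/
def Quot (a b : ℕ → ℕ∞) (c : ℝ≥0∞) : Prop :=
  Tendsto (fun n => ((a n : ℕ∞) : ℝ≥0∞) / ((b n : ℕ∞) : ℝ≥0∞)) atTop (𝓝 c)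

lemma quot_of {T : C} [ExactPairing T T] (h : IsPow Λ R T) {a b : ℕ → ℕ∞} {N d : ℕ∞}
    (ha : RatioTo Λ T a N) (hb : RatioTo Λ T b d) (hd : d ≠ 0) (hd' : d ≠ ⊤) :
    Quot a b ((N : ℝ≥0∞) / d) := by
  have h1 : ((d : ℕ∞) : ℝ≥0∞) ≠ 0 := by
    rw [Ne, ENat.toENNReal_eq_zero]
    exact hd
  have h2 : ((d : ℕ∞) : ℝ≥0∞) ≠ ⊤ := by
    rw [Ne, ENat.toENNReal_eq_top]
    exact hd'
  have h3 := ENNReal.Tendsto.div ha (Or.inr h1) hb (Or.inl h2)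
  refine h3.congr fun n => ?_
  have h4 : (numRank Λ (tp T n) : ℝ≥0∞) ≠ 0 := by
    exact_mod_cast (numRank_mono h n).1.ne'
  have h5 : (numRank Λ (tp T n) : ℝ≥0∞) ≠ ⊤ := ENNReal.natCast_ne_top _
  generalize (numRank Λ (tp T n) : ℝ≥0∞) = r at *
  rw [div_eq_mul_inv (_ / r), ENNReal.inv_div (Or.inl h5) (Or.inl h4)]
  simp only [div_eq_mul_inv]
  calc ((a n : ℕ∞) : ℝ≥0∞) * r⁻¹ * (r * ((b n : ℕ∞) : ℝ≥0∞)⁻¹) =
        (r⁻¹ * r) * (((a n : ℕ∞) : ℝ≥0∞) * ((b n : ℕ∞) : ℝ≥0∞)⁻¹) := by ring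
    _ = ((a n : ℕ∞) : ℝ≥0∞) * ((b n : ℕ∞) : ℝ≥0∞)⁻¹ := by
        rw [ENNReal.inv_mul_cancel h4 h5, one_mul]

/-- The numerical rank of `B ⊗ T ^ n`. -/
noncomputable def rankSeq (Λ : Type t) [Field Λ] [Linear Λ C] [MonoidalLinear Λ C] (B T : C)
    (n : ℕ) : ℕ∞ := (numRank Λ (B ⊗ tp T n) : ℕ∞)

/-- **The law with a fixed factor for the classes between `J` and numerical equivalence.** -/
theorem main {T : C} [ExactPairing T T] (h : IsPow Λ R T) (hJ : Stable J) (B : C) :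
    ∃ N d : ℕ∞, RatioTo Λ T (dimRel J (fun Y => numIdeal Λ (𝟙_ C) Y) B T) N ∧
      RatioTo Λ T (rankSeq Λ B T) d ∧
      (N = 0 ↔ ∀ n, ∀ α : 𝟙_ C ⟶ B ⊗ tp T n, NumTriv α → α ∈ J (B ⊗ tp T n)) ∧
      (R.CPlus B → d ≤ bt R B) ∧ ((∃ (p : ℕ) (β : 𝟙_ C ⟶ B ⊗ tp T p), ¬ NumTriv β) ↔ d ≠ 0) ∧
      (d ≠ 0 → d ≠ ⊤ → Quot (dimRel J (fun Y => numIdeal Λ (𝟙_ C) Y) B T) (rankSeq Λ B T)
        ((N : ℝ≥0∞) / d)) ∧
      (∀ m n : ℕ, 128 * (m + 1) ^ 2 * bt R T ^ (2 * m + 6) ≤ n →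
        ∀ α : 𝟙_ C ⟶ B ⊗ tp T m, NumTriv α → α ∉ J (B ⊗ tp T m) →
          (numRank Λ (tp T n) : ℕ∞) ≤ 2 * dimRel J (fun Y => numIdeal Λ (𝟙_ C) Y) B T n) ∧
      ∀ k : ℕ, N = k → ∀ (a b : ℕ) (f : tp T a ⟶ tp T b), NumPow T k f →
        ∀ x : 𝟙_ C ⟶ B ⊗ tp T a, NumTriv x → x ≫ (B ◁ f) ∈ J (B ⊗ tp T b) := by
  obtain ⟨N, h1, h2, h3, h4⟩ := fix_law h hJ (num_stable h.real) B
  obtain ⟨d, k1, k2, k3⟩ := num_law h B
  refine ⟨N, d, h1, k1, h2.trans (forall_congr' fun n => Iff.rfl), k2, k3,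
    fun hd hd' => quot_of h h1 k1 hd hd', fun m n hn α hα hα' => ?_, h4⟩
  by_contra hcon
  rw [not_le] at hcon
  exact hα' (h3 m n hn hcon hα)

/-- A class which is not numerically trivial has a dual class. -/
lemma exists_dual (hR : IsReal Λ R) {Y : C} {β : 𝟙_ C ⟶ Y} (hβ : ¬ NumTriv β) :
    ∃ β' : Y ⟶ 𝟙_ C, β ≫ β' = 𝟙 _ := by
  rw [numTriv_unit_iff hR, not_forall] at hβ
  obtain ⟨γ, hγ⟩ := hβ
  obtain ⟨q, hq⟩ := hR.unit (β ≫ γ)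
  have hq0 : q ≠ 0 := by
    rintro rfl
    rw [zero_smul] at hq
    exact hγ hq
  refine ⟨q⁻¹ • γ, ?_⟩
  rw [Linear.comp_smul, hq, smul_smul, inv_mul_cancel₀ hq0, one_smul]

/-- **Breeding.** -/
theorem top_of {T : C} [ExactPairing T T] (h : IsPow Λ R T) (hJ : Stable J) {B : C} {N : ℕ∞}
    (hN : ∀ k : ℕ, N = k → ∀ (a b : ℕ) (f : tp T a ⟶ tp T b), NumPow T k f →
        ∀ x : 𝟙_ C ⟶ B ⊗ tp T a, NumTriv x → x ≫ (B ◁ f) ∈ J (B ⊗ tp T b))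
    {p : ℕ} {β : 𝟙_ C ⟶ B ⊗ tp T p} (hβ : ¬ NumTriv β) {q : ℕ} {α : 𝟙_ C ⟶ tp T q}
    (hα : NumTriv α) (hα' : ∀ k, tpow α k ∉ J (tp (tp T q) k)) : N = ⊤ := by
  by_contra hne
  obtain ⟨k, rfl⟩ := ENat.ne_top_iff_exists.1 hne
  obtain ⟨β', hβ'⟩ := exists_dual h.real hβ
  refine hα' (1 + k) (breed (I := fun Y => numIdeal Λ (𝟙_ C) Y) h hJ (hN k rfl) hβ' hα fun i => ?_)
  have h1 : NumTriv ((ρ_ (tp T p)).inv ≫ (tp T p ◁ α) ≫ i.hom) :=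
    NumTriv.comp h.real (NumTriv.whiskerLeft h.real hα _) _ _
  have h2 := NumTriv.comp h.real (NumTriv.whiskerLeft h.real h1 B) β (𝟙 _)
  rw [Category.comp_id] at h2
  exact h2

/-- The growth of the defect. -/
lemma growth_of {T : C} [ExactPairing T T] (h : IsPow Λ R T) {n : ℕ} {D : ℕ∞}
    (hD : (numRank Λ (tp T (n + n)) : ℕ∞) ≤ 2 * D) :
    ((bt R T ^ (2 * n) : ℕ) : ℕ∞) ≤ (2 * (n + 1) ^ (bt R T ^ 2) : ℕ) * D := by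
  have h1 := growth (Λ := Λ) h.real h.cplus n
  rw [nr_tp h.real, ← pow_mul] at h1
  have h2 : ((bt R T ^ (2 * n) : ℕ) : ℕ∞) ≤
      ((n + 1) ^ (bt R T ^ 2) * numRank Λ (tp T (n + n)) : ℕ) := by exact_mod_cast h1
  refine h2.trans ?_
  push_cast
  calc ((n : ℕ∞) + 1) ^ (bt R T ^ 2) * (numRank Λ (tp T (n + n)) : ℕ∞)
      ≤ ((n : ℕ∞) + 1) ^ (bt R T ^ 2) * (2 * D) := by gcongr
    _ = 2 * ((n : ℕ∞) + 1) ^ (bt R T ^ 2) * D := by ring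

end Pool.Agent.U226.FX
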