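import Pool.Agent.U226.FX.Main

/-!
# The law with a fixed factor for the powers of `T ⊗ Tᘁ`
-/

set_option autoImplicit false
set_option linter.unusedSectionVars false

open CategoryTheory Limits MonoidalCategory Module Filter Topology
open Pool.Agent.Y112.SR Pool.Agent.Y112.KD Pool.Agent.N64.AF
open scoped ENNReal

namespace Pool.Agent.U226.FX

universe v u w t x

variable {C : Type u} [Category.{v} C] [Preadditive C] [MonoidalCategory C]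
  [MonoidalPreadditive C] [SymmetricCategory C] [RightRigidCategory C]
  {Λ : Type t} [Field Λ] [CharZero Λ] [Linear Λ C] [MonoidalLinear Λ C]
  {K : Type w} [Field K] [IsAlgClosed K] [Algebra Λ K] {R : SuperRealisation C K}
  {J : ∀ Y : C, Submodule Λ (𝟙_ C ⟶ Y)}

/-- The growth of the defect for the powers of `T ⊗ Tᘁ`. -/
lemma growth_nc (hR : IsReal Λ R) {T : C} (hT : R.CPlus T) {n : ℕ} {D : ℕ∞}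
    (hD : (numRank Λ (tp (T ⊗ Tᘁ) n) : ℕ∞) ≤ 2 * D) :
    ((bt R T ^ (2 * n) : ℕ) : ℕ∞) ≤ (2 * (n + 1) ^ (bt R T ^ 2) : ℕ) * D := by
  have h1 := growth (Λ := Λ) hR hT n
  rw [← numRank_tensor_dual hR, ← pow_mul] at h1
  have h2 : ((bt R T ^ (2 * n) : ℕ) : ℕ∞) ≤
      ((n + 1) ^ (bt R T ^ 2) * numRank Λ (tp (T ⊗ Tᘁ) n) : ℕ) := by exact_mod_cast h1
  refine h2.trans ?_
  push_cast
  calc ((n : ℕ∞) + 1) ^ (bt R T ^ 2) * (numRank Λ (tp (T ⊗ Tᘁ) n) : ℕ∞)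
      ≤ ((n : ℕ∞) + 1) ^ (bt R T ^ 2) * (2 * D) := by gcongr
    _ = 2 * ((n : ℕ∞) + 1) ^ (bt R T ^ 2) * D := by ring

/-- **The law with a fixed factor for the powers of `T ⊗ Tᘁ`.** -/
theorem main_nc (hR : IsReal Λ R) {T : C} (hT : R.CPlus T) (hb : 0 < bt R T) (hJ : Stable J)
    (B : C) : ∃ N d : ℕ∞,
      RatioTo Λ (T ⊗ Tᘁ) (dimRel J (fun Y => numIdeal Λ (𝟙_ C) Y) B (T ⊗ Tᘁ)) N ∧
      RatioTo Λ (T ⊗ Tᘁ) (rankSeq Λ B (T ⊗ Tᘁ)) d ∧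
      (N = 0 ↔ ∀ n, ∀ α : 𝟙_ C ⟶ B ⊗ tp (T ⊗ Tᘁ) n, NumTriv α → α ∈ J (B ⊗ tp (T ⊗ Tᘁ) n)) ∧
      (d = 0 ↔ ∀ n, ∀ α : 𝟙_ C ⟶ B ⊗ tp (T ⊗ Tᘁ) n, NumTriv α) ∧
      (R.CPlus B → d ≤ bt R B) ∧
      (d ≠ 0 → d ≠ ⊤ → Quot (dimRel J (fun Y => numIdeal Λ (𝟙_ C) Y) B (T ⊗ Tᘁ))
        (rankSeq Λ B (T ⊗ Tᘁ)) ((N : ℝ≥0∞) / d)) ∧
      (∀ m n : ℕ, 128 * (m + 1) ^ 2 * bt R T ^ (4 * m + 12) ≤ n →
        ∀ α : 𝟙_ C ⟶ B ⊗ tp (T ⊗ Tᘁ) m, NumTriv α → α ∉ J (B ⊗ tp (T ⊗ Tᘁ) m) →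
          (numRank Λ (tp (T ⊗ Tᘁ) n) : ℕ∞) ≤
            2 * dimRel J (fun Y => numIdeal Λ (𝟙_ C) Y) B (T ⊗ Tᘁ) n ∧
          ((bt R T ^ (2 * n) : ℕ) : ℕ∞) ≤ (2 * (n + 1) ^ (bt R T ^ 2) : ℕ) *
            dimRel J (fun Y => numIdeal Λ (𝟙_ C) Y) B (T ⊗ Tᘁ) n) ∧
      ∀ k : ℕ, N = k → ∀ (a b : ℕ) (f : tp (T ⊗ Tᘁ) a ⟶ tp (T ⊗ Tᘁ) b), NumPow (T ⊗ Tᘁ) k f →
        ∀ x : 𝟙_ C ⟶ B ⊗ tp (T ⊗ Tᘁ) a, NumTriv x → x ≫ (B ◁ f) ∈ J (B ⊗ tp (T ⊗ Tᘁ) b) := by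
  obtain ⟨inst, hS⟩ := isPow_tensor_dual hR hT hb
  obtain ⟨N, d, h1, h2, h3, h4, h5, h6, h7, h8⟩ := main hS hJ B
  refine ⟨N, d, h1, h2, h3, ?_, h4, h6, ?_, h8⟩
  · constructor
    · intro hd n α
      by_contra hα
      exact h5.1 ⟨n, α, hα⟩ hd
    · intro hall
      by_contra hd
      obtain ⟨p, β, hβ⟩ := h5.2 hd
      exact hβ (hall p β)
  · intro m n hn α hα hα'
    have e1 : bt R (T ⊗ Tᘁ) = bt R T ^ 2 := by rw [bt_tensor, bt_dual, sq]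
    have k1 := h7 m n (by
      rw [e1, ← pow_mul]
      have e2 : 2 * (2 * m + 6) = 4 * m + 12 := by ring
      rwa [e2]) α hα hα'
    exact ⟨k1, growth_nc hR hT k1⟩

end Pool.Agent.U226.FX
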