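import Pool.Agent.U226.FX.Breed

/-!
# The numerical rank of `B ⊗ T ^ n`
-/

set_option autoImplicit false
set_option linter.unusedSectionVars false

open CategoryTheory Limits MonoidalCategory Module Filter Topology
open Pool.Agent.Y112.SR Pool.Agent.Y112.KD Pool.Agent.N64.AF
open scoped ENNReal

namespace Pool.Agent.U226.FX

universe v u w t x

variable {C : Type u} [Category.{v} C] [Preadditive C] [MonoidalCategory C]
  [MonoidalPreadditive C] [SymmetricCategory C] [RightRigidCategory C]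
  {Λ : Type t} [Field Λ] [CharZero Λ] [Linear Λ C] [MonoidalLinear Λ C]
  {K : Type w} [Field K] [IsAlgClosed K] [Algebra Λ K] {R : SuperRealisation C K}

/-- `Y ⊗ T ⊗ ⋯ ⊗ T`. -/
def up (Y T : C) : ℕ → C
  | 0 => Y
  | p + 1 => up Y T p ⊗ T

def upIso (Y T : C) : ∀ p : ℕ, Y ⊗ tp T p ≅ up Y T p
  | 0 => ρ_ Y
  | p + 1 => (α_ Y (tp T p) T).symm ≪≫ whiskerRightIso (upIso Y T p) T

theorem nr_up (hR : IsReal Λ R) (Y T : C) [ExactPairing T T] (n p : ℕ) :
    nr Λ (𝟙 Y) (𝟙 (tp T (n + p))) = nr Λ (𝟙 (up Y T p)) (𝟙 (tp T n)) := by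
  induction p generalizing n with
  | zero => rfl
  | succ p ih =>
    have h2 : 𝟙 (tp T (n + 1)) = 𝟙 (tp T n) ▷ T := (id_whiskerRight (tp T n) T).symm
    have h3 : n + (p + 1) = (n + 1) + p := by omega
    have h4 : 𝟙 (up Y T (p + 1)) = 𝟙 (up Y T p) ▷ T := (id_whiskerRight (up Y T p) T).symm
    rw [h3, ih (n + 1), h2, h4, ← nr_dual hR T T]
    rfl

/-- The bound for an object which satisfies the sign conjecture. -/
theorem nr_even_le {T : C} [ExactPairing T T] (h : IsPow Λ R T) {Y : C} (hY : R.CPlus Y) (p : ℕ) :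
    nr Λ (𝟙 Y) (𝟙 (tp T (p + p))) ≤ bt R Y * numRank Λ (tp T (p + p)) := by
  rw [nr_up h.real Y T p p, ← nr_congr_left h.real (upIso Y T p) (e := 𝟙 Y ▷ tp T p)
    (by rw [id_whiskerRight, Category.id_comp, Category.comp_id]), ← nr_tp h.real T p p]
  exact schur h.real hY (cplus_tp h.real h.cplus p) (numIdem_id Y) (isRk_id R Y)

theorem numRank_tensor (hR : IsReal Λ R) (B W : C) :
    numRank Λ (B ⊗ W) = nr Λ (𝟙 (Bᘁ)) (𝟙 W) := by
  let _ : ExactPairing Bᘁ B := BraidedCategory.exactPairing_swap B Bᘁ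
  rw [numRank_eq, nr_congr_right hR (β_ B W) (𝟙 (𝟙_ C)) (f' := 𝟙 W ▷ B)
    (by rw [id_whiskerRight, Category.id_comp, Category.comp_id]), ← nr_dual hR Bᘁ B]
  exact nr_congr_left hR (λ_ Bᘁ) (by rw [id_whiskerRight, Category.id_comp, Category.comp_id]) _

theorem numRank_even_le {T : C} [ExactPairing T T] (h : IsPow Λ R T) {B : C} (hB : R.CPlus B)
    (p : ℕ) : numRank Λ (B ⊗ tp T (p + p)) ≤ bt R B * numRank Λ (tp T (p + p)) := by
  rw [numRank_tensor h.real, ← bt_dual R B]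
  exact nr_even_le h (cplus_dual h.real hB) p

lemma num_stable (hR : IsReal Λ R) : Stable (fun Y : C => numIdeal Λ (𝟙_ C) Y) := by
  intro Y Z f a ha
  have h := NumTriv.comp hR (f := a) ha (𝟙 _) f
  rw [Category.id_comp] at h
  exact h

lemma top_stable : Stable (fun Y : C => (⊤ : Submodule Λ (𝟙_ C ⟶ Y))) := fun _ _ _ _ _ => trivial

lemma dimE_top_rel (hR : IsReal Λ R) (Y : C) :
    dimE Λ (Rel (numIdeal Λ (𝟙_ C) Y) ⊤) = (numRank Λ Y : ℕ∞) := by
  have e : Rel (numIdeal Λ (𝟙_ C) Y) ⊤ ≃ₗ[Λ] ((𝟙_ C ⟶ Y) ⧸ numIdeal Λ (𝟙_ C) Y) :=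
    Submodule.Quotient.equiv _ _ Submodule.topEquiv (by
      ext x
      constructor
      · rintro ⟨y, hy, rfl⟩
        exact hy
      · intro hx
        exact ⟨⟨x, trivial⟩, hx, rfl⟩)
  rw [dimE, LinearEquiv.rank_eq e]
  have := finite_num hR (𝟙_ C) Y
  exact dimE_eq

/-- **The numerical rank.** -/
theorem num_law {T : C} [ExactPairing T T] (h : IsPow Λ R T) (B : C) : ∃ d : ℕ∞,
    RatioTo Λ T (fun n => (numRank Λ (B ⊗ tp T n) : ℕ∞)) d ∧
      (R.CPlus B → d ≤ bt R B) ∧ ((∃ (p : ℕ) (β : 𝟙_ C ⟶ B ⊗ tp T p), ¬ NumTriv β) ↔ d ≠ 0) := by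
  obtain ⟨d, h1, h2, -, -⟩ := fix_law h (J := fun Y => numIdeal Λ (𝟙_ C) Y)
    (I := fun Y => (⊤ : Submodule Λ (𝟙_ C ⟶ Y))) (num_stable h.real) top_stable B
  have h3 : dimRel (fun Y => numIdeal Λ (𝟙_ C) Y) (fun Y => (⊤ : Submodule Λ (𝟙_ C ⟶ Y))) B T =
      fun n => (numRank Λ (B ⊗ tp T n) : ℕ∞) := by
    funext n
    exact dimE_top_rel h.real _
  rw [h3] at h1
  refine ⟨d, h1, ?_, ?_⟩
  · intro hB
    have h4 : Tendsto (fun p : ℕ => p + p) atTop atTop :=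
      tendsto_atTop_mono (fun n => Nat.le_add_left n n) tendsto_id
    have h5 : (d : ℝ≥0∞) ≤ (bt R B : ℝ≥0∞) := by
      refine le_of_tendsto' (Tendsto.comp h1 h4) fun p => ?_
      have h6 : (numRank Λ (tp T (p + p)) : ℝ≥0∞) ≠ 0 := by
        exact_mod_cast (numRank_mono h (p + p)).1.ne'
      rw [Function.comp_apply, ENNReal.div_le_iff h6 (ENNReal.natCast_ne_top _)]
      change ((numRank Λ (B ⊗ tp T (p + p)) : ℕ) : ℝ≥0∞) ≤ _
      exact_mod_cast numRank_even_le h hB p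
    have h7 : (d : ℝ≥0∞) ≤ (((bt R B : ℕ) : ℕ∞) : ℝ≥0∞) := h5
    exact ENat.toENNReal_le.1 h7
  · rw [Ne, h2, not_forall]
    refine exists_congr fun n => ?_
    rw [SetLike.le_def, not_forall]
    refine exists_congr fun β => ?_
    simp only [Submodule.mem_top, forall_const]
    rfl

end Pool.Agent.U226.FX
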