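import Pool.Agent.U724.FF.Main
import Pool.Agent.U226.FX.Main

/-!
# Additive functors which vanish on the unit object and the strong Tate conjecture
-/

set_option autoImplicit false
set_option linter.unusedSectionVars false

open CategoryTheory Limits MonoidalCategory Module Polynomial Filter Topology
open Pool.Agent.Y112.SR Pool.Agent.Y112.KD Pool.Agent.N64.AF Pool.Agent.U724.NT
open Pool.Agent.U724.PH Pool.Agent.N8.AFBb Pool.Agent.U724.FF
open scoped ENNReal

namespace Pool.Agent.U226.FX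

universe v u w t x

/-- The polynomial of the projector to a generalised eigenspace. -/
lemma exists_proj_poly {F : Type*} [Field F] {g : F[X]} (hg : g ≠ 0) (r : F) :
    ∃ (e c c' : F[X]) (m : ℕ), e * e = e - c * g ∧ e.eval r = 1 ∧
      (X - Polynomial.C r) ^ m * e = c' * g := by
  obtain ⟨h, hgh, hnd⟩ := exists_eq_pow_rootMultiplicity_mul_and_not_dvd g hg r
  set m := g.rootMultiplicity r
  have hirr : Irreducible (X - Polynomial.C r : F[X]) := irreducible_X_sub_C r
  have hc : IsCoprime ((X - Polynomial.C r : F[X]) ^ (m + 1)) h :=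
    ((hirr.coprime_iff_not_dvd).2 hnd).pow_left
  obtain ⟨a, b, hab⟩ := hc
  refine ⟨b * h, a * b * (X - Polynomial.C r), b, m, ?_, ?_, ?_⟩
  · rw [hgh]
    linear_combination (b * h) * hab
  · have h1 := congrArg (eval r) hab
    rw [eval_add, eval_mul, eval_pow, eval_sub, eval_X, eval_C, sub_self,
      zero_pow (Nat.succ_ne_zero m), mul_zero, zero_add, eval_one] at h1
    exact h1
  · rw [hgh]
    ring

variable {C : Type u} [Category.{v} C] [Preadditive C] [MonoidalCategory C]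
  [MonoidalPreadditive C] [SymmetricCategory C] [RightRigidCategory C]
  {Λ : Type t} [Field Λ] [CharZero Λ] [Linear Λ C] [MonoidalLinear Λ C]
  {K : Type w} [Field K] [IsAlgClosed K] [Algebra Λ K] {R : SuperRealisation C K}

/-- Endomorphisms are algebraic modulo the homologically trivial ones. -/
theorem exists_poly_hom (hR : IsReal Λ R) {Y : C} (hY : R.CPlus Y) (φ : End Y) :
    ∃ g : Λ[X], g ≠ 0 ∧ R.H.map ((aeval φ g : End Y) : Y ⟶ Y) = 0 := by
  have hfin : Module.Finite Λ ((Y ⟶ Y) ⧸ numIdeal Λ Y Y) := finite_num hR Y Y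
  let L : Λ[X] →ₗ[Λ] ((Y ⟶ Y) ⧸ numIdeal Λ Y Y) :=
    (numIdeal Λ Y Y).mkQ ∘ₗ (aeval φ : Λ[X] →ₐ[Λ] End Y).toLinearMap
  have h1 : ¬ Function.Injective L := fun h =>
    Polynomial.not_finite (R := Λ) (Module.Finite.of_injective L h)
  rw [← LinearMap.ker_eq_bot, Submodule.eq_bot_iff] at h1
  push Not at h1
  obtain ⟨p, hp, hp0⟩ := h1
  have h2 : NumTriv ((aeval φ p : End Y) : Y ⟶ Y) := by
    have h3 : (numIdeal Λ Y Y).mkQ ((aeval φ p : End Y) : Y ⟶ Y) = 0 := hp
    rwa [Submodule.mkQ_apply, Submodule.Quotient.mk_eq_zero, mem_numIdeal] at h3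
  obtain ⟨k, hk⟩ := exists_pow_hom hR hY h2
  refine ⟨p ^ k, pow_ne_zero _ hp0, ?_⟩
  rw [map_pow]
  exact hk

/-- The action of a polynomial in `φ` on an eigenvector of a functor. -/
lemma fun_aeval (F : C ⥤ ModuleCat.{x} Λ) [F.Additive] [F.Linear Λ] {Y : C} {φ : End Y}
    {x : F.obj Y} {r : Λ} (hx : (F.map (φ : Y ⟶ Y)).hom x = r • x) (p : Λ[X]) :
    (F.map ((aeval φ p : End Y) : Y ⟶ Y)).hom x = p.eval r • x := by
  have hpow : ∀ k : ℕ, (F.map ((φ ^ k : End Y) : Y ⟶ Y)).hom x = r ^ k • x := by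
    intro k
    induction k with
    | zero =>
      rw [pow_zero, pow_zero, one_smul]
      have h1 : F.map ((1 : End Y) : Y ⟶ Y) = 𝟙 _ := F.map_id Y
      rw [h1]
      rfl
    | succ k ih =>
      rw [pow_succ', End.mul_def]
      have h1 : F.map (((φ ^ k : End Y) : Y ⟶ Y) ≫ (φ : Y ⟶ Y)) =
        F.map ((φ ^ k : End Y) : Y ⟶ Y) ≫ F.map (φ : Y ⟶ Y) := F.map_comp _ _
      rw [h1, ModuleCat.hom_comp, LinearMap.comp_apply, ih, map_smul, hx, smul_smul, pow_succ]
  induction p using Polynomial.induction_on' with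
  | add p q hp hq =>
    rw [map_add, eval_add, add_smul, ← hp, ← hq]
    have h1 : F.map (((aeval φ p : End Y) : Y ⟶ Y) + ((aeval φ q : End Y) : Y ⟶ Y)) =
      F.map ((aeval φ p : End Y) : Y ⟶ Y) + F.map ((aeval φ q : End Y) : Y ⟶ Y) := F.map_add
    change (F.map (((aeval φ p : End Y) : Y ⟶ Y) + ((aeval φ q : End Y) : Y ⟶ Y))).hom x = _
    rw [h1]
    rfl
  | monomial k c =>
    rw [aeval_monomial, eval_monomial, Algebra.algebraMap_eq_smul_one, smul_mul_assoc, one_mul,
      mul_smul, ← hpow k]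
    have h1 : F.map (c • ((φ ^ k : End Y) : Y ⟶ Y)) = c • F.map ((φ ^ k : End Y) : Y ⟶ Y) :=
      F.map_smul c _
    change (F.map (c • ((φ ^ k : End Y) : Y ⟶ Y))).hom x = _
    rw [h1]
    rfl

/-- **Eigenvectors vanish.** -/
theorem eigen_vec_zero (hR : IsReal Λ R) {U : C} (hU : R.CPlus U) (F : C ⥤ ModuleCat.{x} Λ)
    [F.Additive] [F.Linear Λ] (hF1 : Subsingleton (F.obj (𝟙_ C)))
    (hnil : ∀ y : U ⟶ U, NumTriv y → IsNilpotent ((F.map y).hom : Module.End Λ (F.obj U)))
    (φ : End U) {r : Λ} (hT : StrongTate R (φ : U ⟶ U) r) {x : F.obj U}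
    (hx : (F.map (φ : U ⟶ U)).hom x = r • x) : x = 0 := by
  obtain ⟨g, hg, hφ⟩ := exists_poly_hom (Λ := Λ) hR hU φ
  obtain ⟨e, c₁, c₂, m, he1, he2, he3⟩ := exists_proj_poly hg r
  set ε' : End U := Polynomial.aeval φ e with hε'
  obtain ⟨ε, hε⟩ : ∃ ε : U ⟶ U, ε = (ε' : U ⟶ U) := ⟨_, rfl⟩
  have hkill : ∀ c : Λ[X], R.H.map ((aeval φ (c * g) : End U) : U ⟶ U) = 0 := by
    intro c
    rw [map_mul, End.mul_def]
    have h1 : R.H.map (((aeval φ g : End U) : U ⟶ U) ≫ ((aeval φ c : End U) : U ⟶ U)) = 0 := by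
      rw [R.H.map_comp, hφ, Limits.zero_comp]
    exact h1
  -- the basis
  have hfin := finite_num hR (Λ := Λ) (𝟙_ C) U
  set W := (eigen (φ : U ⟶ U) r).map (numIdeal Λ (𝟙_ C) U).mkQ with hW
  set n := finrank Λ W with hn
  let w : Basis (Fin n) Λ W := Module.finBasis Λ W
  have hex : ∀ j, ∃ β ∈ eigen (φ : U ⟶ U) r, (numIdeal Λ (𝟙_ C) U).mkQ β = (w j : _) :=
    fun j => (w j).2
  choose β hβ1 hβ2 using hex
  have hexf : ∀ j, ∃ f : ((𝟙_ C ⟶ U) ⧸ numIdeal Λ (𝟙_ C) U) →ₗ[Λ] Λ,
      f ∘ₗ W.subtype = w.coord j := fun j => LinearMap.exists_extend (w.coord j)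
  choose f hf using hexf
  choose γ₀ hγ₀ using fun j => exists_form hR U (f j)
  have hd0 : ∀ i j, β i ≫ γ₀ j = if i = j then 𝟙 (𝟙_ C) else 0 := by
    intro i j
    rw [hγ₀]
    have h1 : f j (Submodule.Quotient.mk (β i)) = (f j ∘ₗ W.subtype) (w i) := by
      rw [LinearMap.comp_apply, Submodule.subtype_apply, ← hβ2]
      rfl
    rw [h1, hf, Basis.coord_apply, Basis.repr_self, Finsupp.single_apply]
    split_ifs with hij
    · rw [one_smul]
    · rw [zero_smul]
  have hβε : ∀ j, β j ≫ ε = β j := by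
    intro j
    rw [hε, hε', comp_aeval (hβ1 j), he2, one_smul]
  have hεε : R.H.map ε ≫ R.H.map ε = R.H.map ε := by
    have h1 : ((ε' * ε' : End U) : U ⟶ U) = ε ≫ ε := by
      rw [hε]
      rfl
    have h2 : ε' * ε' = ε' - aeval φ (c₁ * g) := by
      rw [hε', ← map_mul, he1, map_sub]
    rw [← R.H.map_comp, ← h1, h2]
    have h3 : R.H.map (((ε' : End U) : U ⟶ U) - ((aeval φ (c₁ * g) : End U) : U ⟶ U)) =
        R.H.map ε := by
      rw [R.H.map_sub, hkill, sub_zero, hε]
    exact h3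
  let γ : Fin n → (U ⟶ 𝟙_ C) := fun j => ε ≫ γ₀ j
  have hd : ∀ i j, β i ≫ γ j = if i = j then 𝟙 (𝟙_ C) else 0 := by
    intro i j
    change β i ≫ ε ≫ γ₀ j = _
    rw [← Category.assoc, hβε, hd0]
  set p : U ⟶ U := ∑ j, γ j ≫ β j with hp
  have hβp : ∀ i, β i ≫ p = β i := by
    intro i
    rw [hp, Preadditive.comp_sum]
    have h1 : ∀ j, β i ≫ γ j ≫ β j = if i = j then β j else 0 := by
      intro j
      rw [← Category.assoc, hd]
      split_ifs with hij
      · rw [Category.id_comp]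
      · rw [Limits.zero_comp]
    rw [Finset.sum_congr rfl fun j _ => h1 j, Finset.sum_ite_eq, if_pos (Finset.mem_univ i)]
  have hεp : R.H.map ε ≫ R.H.map p = R.H.map p := by
    rw [hp, R.H.map_sum, Preadditive.comp_sum]
    refine Finset.sum_congr rfl fun j _ => ?_
    change R.H.map ε ≫ R.H.map ((ε ≫ γ₀ j) ≫ β j) = R.H.map ((ε ≫ γ₀ j) ≫ β j)
    rw [Category.assoc, R.H.map_comp ε, ← Category.assoc, hεε]
  -- the realisations
  obtain ⟨v₀, hv₀⟩ := exists_gen R
  let b : Fin n → R.H.obj U := fun j => (R.H.map (β j)).hom v₀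
  have hgb : ∀ i j, (R.H.map (γ i)).hom (b j) = if j = i then v₀ else 0 := by
    intro i j
    change (R.H.map (γ i)).hom ((R.H.map (β j)).hom v₀) = _
    rw [← map_ap, hd]
    split_ifs with hij
    · rw [R.H.map_id]
      rfl
    · rw [R.H.map_zero]
      rfl
  set Φ : Module.End K (R.H.obj U) := (R.H.map (φ : U ⟶ U)).hom with hΦ
  set μ : K := algebraMap Λ K r with hμ
  have hbG : ∀ j, b j ∈ Module.End.maxGenEigenspace Φ μ := by
    intro j
    rw [Module.End.mem_maxGenEigenspace]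
    refine ⟨1, ?_⟩
    rw [pow_one, LinearMap.sub_apply, LinearMap.smul_apply, Module.End.one_apply, sub_eq_zero]
    change (R.H.map (φ : U ⟶ U)).hom ((R.H.map (β j)).hom v₀) = μ • (R.H.map (β j)).hom v₀
    rw [← map_ap, show β j ≫ (φ : U ⟶ U) = r • β j from hβ1 j, map_smul_ap hR]
  have hfinU := R.finite U
  have hli : LinearIndependent K (fun j => (⟨b j, hbG j⟩ : Module.End.maxGenEigenspace Φ μ)) := by
    rw [Fintype.linearIndependent_iff]
    intro c hc i
    have h1 := congrArg (fun z : Module.End.maxGenEigenspace Φ μ =>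
      (R.H.map (γ i)).hom (z : R.H.obj U)) hc
    simp only [Submodule.coe_sum, Submodule.coe_smul, map_sum, map_smul, hgb,
      Submodule.coe_zero, map_zero, smul_ite, smul_zero, Finset.sum_ite_eq', Finset.mem_univ,
      if_true] at h1
    exact (smul_eq_zero.1 h1).resolve_right hv₀
  have hcard : Fintype.card (Fin n) = finrank K (Module.End.maxGenEigenspace Φ μ) := by
    apply le_antisymm hli.fintype_card_le_finrank
    rw [Fintype.card_fin]
    exact hT
  have hspan : ∀ z ∈ Module.End.maxGenEigenspace Φ μ, ∃ c : Fin n → K, ∑ j, c j • b j = z := by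
    intro z hz
    have h1 := hli.span_eq_top_of_card_eq_finrank' hcard
    have h2 : (⟨z, hz⟩ : Module.End.maxGenEigenspace Φ μ) ∈ Submodule.span K
        (Set.range fun j => (⟨b j, hbG j⟩ : Module.End.maxGenEigenspace Φ μ)) := by
      rw [h1]
      exact Submodule.mem_top
    rw [Submodule.mem_span_range_iff_exists_fun] at h2
    obtain ⟨c, hc⟩ := h2
    refine ⟨c, ?_⟩
    have h3 := congrArg Subtype.val hc
    simpa only [Submodule.coe_sum, Submodule.coe_smul] using h3
  have hεG : ∀ v, (R.H.map ε).hom v ∈ Module.End.maxGenEigenspace Φ μ := by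
    intro v
    rw [Module.End.mem_maxGenEigenspace]
    refine ⟨m, ?_⟩
    have h1 : Φ - μ • (1 : Module.End K (R.H.obj U)) =
        ((R.H.map ((φ - algebraMap Λ (End U) r : End U) : U ⟶ U)).hom :
          Module.End K (R.H.obj U)) := by
      have h2 : ((φ - algebraMap Λ (End U) r : End U) : U ⟶ U) =
          (show U ⟶ U from φ) - r • 𝟙 U := by
        rw [Algebra.algebraMap_eq_smul_one]
        rfl
      rw [h2, R.H.map_sub, hR.lin, R.H.map_id]
      rfl
    have h4 : ((R.H.map ((φ - algebraMap Λ (End U) r : End U) : U ⟶ U)).hom :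
          Module.End K (R.H.obj U)) = rho R U (φ - algebraMap Λ (End U) r) := rfl
    rw [h1, h4, ← map_pow]
    change (R.H.map (((φ - algebraMap Λ (End U) r) ^ m : End U) : U ⟶ U)).hom
      ((R.H.map ε).hom v) = 0
    rw [← map_ap]
    have h3 : R.H.map (ε ≫ (((φ - algebraMap Λ (End U) r) ^ m : End U) : U ⟶ U)) = 0 := by
      have h5 : (φ - algebraMap Λ (End U) r) ^ m * ε' = aeval φ (c₂ * g) := by
        rw [hε', ← he3, map_mul, map_pow, map_sub, aeval_X, aeval_C]
      have h6 := hkill c₂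
      rw [← h5] at h6
      rw [hε]
      exact h6
    rw [h3]
    rfl
  have hreal : R.H.map (ε - p) = 0 := by
    have h1 : R.H.map p = R.H.map ε := by
      ext v
      obtain ⟨c, hc⟩ := hspan _ (hεG v)
      have h2 : (R.H.map p).hom v = (R.H.map p).hom ((R.H.map ε).hom v) := by
        conv_lhs => rw [← hεp]
        rfl
      have h3 : ∀ j, (R.H.map p).hom (b j) = b j := by
        intro j
        change (R.H.map p).hom ((R.H.map (β j)).hom v₀) = (R.H.map (β j)).hom v₀
        rw [← map_ap, hβp]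
      change (R.H.map p).hom v = (R.H.map ε).hom v
      rw [h2, ← hc, map_sum]
      refine Finset.sum_congr rfl fun j _ => ?_
      rw [map_smul, h3]
    rw [R.H.map_sub, h1, sub_self]
  -- the functor
  obtain ⟨k, hk⟩ := hnil (ε - p) (numTriv_of_map hR hreal)
  have hFp : (F.map p).hom = 0 := by
    rw [hp, F.map_sum]
    have h1 : ∀ j, F.map (γ j ≫ β j) = 0 := by
      intro j
      rw [F.map_comp]
      have h2 : F.map (γ j) = 0 := by
        ext z
        exact Subsingleton.elim _ _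
      rw [h2, Limits.zero_comp]
    rw [Finset.sum_congr rfl fun j _ => h1 j, Finset.sum_const_zero]
    rfl
  have hFx : ((F.map (ε - p)).hom : Module.End Λ (F.obj U)) x = x := by
    have h1 : (F.map (ε - p)).hom x = (F.map ε).hom x - (F.map p).hom x := by
      rw [F.map_sub]
      rfl
    have h2 : (F.map ε).hom x = x := by
      rw [hε, hε', fun_aeval F hx, he2, one_smul]
    change (F.map (ε - p)).hom x = x
    rw [h1, hFp, h2]
    exact sub_zero x
  have hall : ∀ k : ℕ, (((F.map (ε - p)).hom : Module.End Λ (F.obj U)) ^ k) x = x := by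
    intro k
    induction k with
    | zero => rfl
    | succ k ih => rw [pow_succ, Module.End.mul_apply, hFx, ih]
  have h1 := hall k
  rw [hk] at h1
  exact h1.symm

/-- `F (U)` is spanned by eigenvectors of `φ` with eigenvalues for which the strong form of the
conjecture of Tate holds. -/
def TateSpanned (R : SuperRealisation C K) (F : C ⥤ ModuleCat.{x} Λ) {U : C} (φ : U ⟶ U) : Prop :=
  ∀ x : F.obj U, x ∈ Submodule.span Λ
    {z : F.obj U | ∃ r : Λ, StrongTate R φ r ∧ (F.map φ).hom z = r • z}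

/-- The dimension of `F (B ⊗ T ^ n)`. -/
noncomputable def funDim (F : C ⥤ ModuleCat.{x} Λ) (B T : C) (n : ℕ) : ℕ∞ :=
  dimE Λ (F.obj (B ⊗ tp T n))

/-- **The law for an additive functor which vanishes on the unit object.** -/
theorem fun_law {T : C} [ExactPairing T T] (h : IsPow Λ R T) (F : C ⥤ ModuleCat.{x} Λ)
    [F.Additive] [F.Linear Λ] (hF1 : Subsingleton (F.obj (𝟙_ C))) :
    (∃ N : ℕ∞, RatioTo Λ T (fun n => dimE Λ (F.obj (tp T n))) N ∧
      (N = 0 ↔ ∀ n, Subsingleton (F.obj (tp T n))) ∧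
      (N ≠ ⊤ → ∀ (n : ℕ) (φ : tp T n ⟶ tp T n), TateSpanned R F φ →
        Subsingleton (F.obj (tp T n)))) ∧
    (∀ B : C, ∃ N : ℕ∞, RatioTo Λ T (funDim F B T) N ∧
      (N = 0 ↔ ∀ n, Subsingleton (F.obj (B ⊗ tp T n)))) ∧
    ∀ (B : C) (m n : ℕ), ¬ Subsingleton (F.obj (B ⊗ tp T m)) →
      128 * (m + 1) ^ 2 * bt R T ^ (2 * m + 6) ≤ n →
        (numRank Λ (tp T n) : ℕ∞) ≤ 2 * funDim F B T n ∧
        ((bt R T ^ (2 * n) : ℕ) : ℕ∞) ≤
          (2 * (n + 1) ^ (bt R T ^ 2) : ℕ) * funDim F B T (n + n) := by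
  refine ⟨?_, ?_, ?_⟩
  · obtain ⟨N, h1, h2, h3⟩ := law h F
    refine ⟨N, h1, h2, fun hN n φ hφ => ?_⟩
    refine ⟨fun x y => ?_⟩
    have key : ∀ x : F.obj (tp T n), x = 0 := by
      intro x
      have h4 := hφ x
      have h5 : {z : F.obj (tp T n) | ∃ r : Λ, StrongTate R φ r ∧ (F.map φ).hom z = r • z} ⊆
          {0} := by
        rintro z ⟨r, hr, hz⟩
        exact eigen_vec_zero h.real (cplus_tp h.real h.cplus n) F hF1
          (((h3 hN).1 n).2.2) (φ : End (tp T n)) hr hz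
      have h6 := Submodule.span_mono (R := Λ) h5 h4
      rw [Submodule.span_singleton_eq_bot.2 rfl, Submodule.mem_bot] at h6
      exact h6
    rw [key x, key y]
  · intro B
    obtain ⟨N, h1, h2, -⟩ := law h (tensorLeft B ⋙ F)
    exact ⟨N, h1, h2⟩
  · intro B m n hne hn
    have h1 : ∀ n : ℕ, 128 * (m + 1) ^ 2 * bt R T ^ (2 * m + 6) ≤ n →
        (numRank Λ (tp T n) : ℕ∞) ≤ 2 * funDim F B T n := by
      intro n hn
      by_contra hcon
      rw [not_le] at hcon
      obtain ⟨h3, h4⟩ := dimE_lt hcon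
      exact hne (explicit_criterion h (tensorLeft B ⋙ F) hn h3 h4)
    exact ⟨h1 n hn, growth_of h (h1 (n + n) (hn.trans (Nat.le_add_left n n)))⟩

end Pool.Agent.U226.FX
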