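import Pool.Agent.U226.FX.Even
import Pool.Agent.U226.FX.Chi

/-!
# Homologically trivial classes and pure motives
-/

set_option autoImplicit false
set_option linter.unusedSectionVars false

open CategoryTheory Limits MonoidalCategory Module Filter Topology
open Pool.Agent.Y112.SR Pool.Agent.Y112.KD Pool.Agent.N64.AF Pool.Agent.N413.AFW
open scoped ENNReal

namespace Pool.Agent.U226.FX

universe v u w t x

variable {C : Type u} [Category.{v} C] [Preadditive C] [MonoidalCategory C]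
  [MonoidalPreadditive C] [SymmetricCategory C] [RightRigidCategory C]
  [Linear ℚ C] [MonoidalLinear ℚ C]
  {K : Type w} [Field K] [IsAlgClosed K] [Algebra ℚ K] {R : SuperRealisation C K}

/-- `T` is even (`s = 1`) or odd (`s = -1`). -/
lemma cplus_of_sign {T : C} {s : ℚ} (hs : s = 1 ∨ s = -1) (h : R.par T = (s : K) • 𝟙 _) :
    R.CPlus T := by
  rcases hs with rfl | rfl
  · refine ⟨𝟙 T, ?_⟩
    rw [h, CategoryTheory.Functor.map_id, two_smul, Rat.cast_one, one_smul]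
  · refine ⟨0, ?_⟩
    rw [h, Functor.map_zero, smul_zero, Rat.cast_neg, Rat.cast_one, neg_smul, one_smul,
      add_neg_cancel]

/-- Powers of homologically trivial endomorphisms of the powers of `T`. -/
theorem end_pow_hom (_hR : IsReal ℚ R) {T : C} {k : ℕ}
    (h0 : ∀ (n : ℕ) (y : End (tp (T ⊗ Tᘁ) n)),
      R.H.map (y : tp (T ⊗ Tᘁ) n ⟶ tp (T ⊗ Tᘁ) n) = 0 → y ^ k = 0)
    (n : ℕ) (y : End (tp T n)) (hy : R.H.map (y : tp T n ⟶ tp T n) = 0) : y ^ k = 0 := by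
  let _ : ExactPairing (tp T n) (dp Tᘁ n) := pairTp T Tᘁ n
  let y' : End (tp (T ⊗ Tᘁ) n) :=
    (isoTp T Tᘁ n).hom ≫ ((y : tp T n ⟶ tp T n) ▷ dp Tᘁ n) ≫ (isoTp T Tᘁ n).inv
  have hy' : R.H.map (y' : tp (T ⊗ Tᘁ) n ⟶ tp (T ⊗ Tᘁ) n) = 0 := by
    change R.H.map ((isoTp T Tᘁ n).hom ≫ ((y : tp T n ⟶ tp T n) ▷ dp Tᘁ n) ≫
      (isoTp T Tᘁ n).inv) = 0
    rw [Functor.map_comp, Functor.map_comp, Functor.Monoidal.map_whiskerRight, hy]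
    simp
  have h1 : ∀ j : ℕ, ((y' ^ j : End (tp (T ⊗ Tᘁ) n)) : tp (T ⊗ Tᘁ) n ⟶ tp (T ⊗ Tᘁ) n) =
      (isoTp T Tᘁ n).hom ≫ (((y ^ j : End (tp T n)) : tp T n ⟶ tp T n) ▷ dp Tᘁ n) ≫
        (isoTp T Tᘁ n).inv := by
    intro j
    induction j with
    | zero =>
      change 𝟙 _ = (isoTp T Tᘁ n).hom ≫ ((𝟙 (tp T n)) ▷ dp Tᘁ n) ≫ (isoTp T Tᘁ n).inv
      rw [id_whiskerRight, Category.id_comp, Iso.hom_inv_id]
    | succ j ih =>
      rw [pow_succ', pow_succ', End.mul_def, End.mul_def, comp_whiskerRight]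
      change ((y' ^ j : End (tp (T ⊗ Tᘁ) n)) : tp (T ⊗ Tᘁ) n ⟶ tp (T ⊗ Tᘁ) n) ≫
        ((isoTp T Tᘁ n).hom ≫ ((y : tp T n ⟶ tp T n) ▷ dp Tᘁ n) ≫ (isoTp T Tᘁ n).inv) = _
      rw [ih]
      simp only [Category.assoc, Iso.inv_hom_id_assoc]
  have h2 := h0 n y' hy'
  have h2' : ((y' ^ k : End (tp (T ⊗ Tᘁ) n)) : tp (T ⊗ Tᘁ) n ⟶ tp (T ⊗ Tᘁ) n) = 0 := h2
  rw [h1 k] at h2'
  have h3 : ((y ^ k : End (tp T n)) : tp T n ⟶ tp T n) ▷ dp Tᘁ n = 0 := by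
    have h4 : ((y ^ k : End (tp T n)) : tp T n ⟶ tp T n) ▷ dp Tᘁ n =
        (isoTp T Tᘁ n).inv ≫ ((isoTp T Tᘁ n).hom ≫
          (((y ^ k : End (tp T n)) : tp T n ⟶ tp T n) ▷ dp Tᘁ n) ≫ (isoTp T Tᘁ n).inv) ≫
            (isoTp T Tᘁ n).hom := by simp
    rw [h4, h2', zero_comp, comp_zero]
  exact whisker_zero _ h3

/-- **The law for homologically trivial classes and pure motives.** -/
theorem pure_law [IsIdempotentComplete C] (hR : IsReal ℚ R) {T : C} {s : ℚ} (hs : s = 1 ∨ s = -1)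
    (hpar : R.par T = (s : K) • 𝟙 _) (hb : 0 < bt R T) (B : C) :
    ∃ N d : ℕ∞, RatioTo ℚ (T ⊗ Tᘁ) (homDim hR B (T ⊗ Tᘁ)) N ∧
      RatioTo ℚ (T ⊗ Tᘁ) (rankSeq ℚ B (T ⊗ Tᘁ)) d ∧
      (N = 0 ↔ ∀ (n : ℕ) (α : 𝟙_ C ⟶ B ⊗ tp (T ⊗ Tᘁ) n), R.H.map α = 0 → α = 0) ∧
      (d = 0 ↔ ∀ (n : ℕ) (α : 𝟙_ C ⟶ B ⊗ tp (T ⊗ Tᘁ) n), NumTriv α) ∧
      (R.CPlus B → d ≤ bt R B) ∧
      (d ≠ 0 → ∀ k : ℕ, N = k →
        (∀ (n : ℕ) (y : End (tp T n)), R.H.map (y : tp T n ⟶ tp T n) = 0 → y ^ (k + 1) = 0) ∧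
        asym (-s) T (bt R T + 1) = 0) ∧
      ∀ (m n : ℕ) (α : 𝟙_ C ⟶ B ⊗ tp (T ⊗ Tᘁ) m), R.H.map α = 0 → α ≠ 0 →
        128 * (m + 1) ^ 2 * bt R T ^ (4 * m + 12) ≤ n →
          (numRank ℚ (tp (T ⊗ Tᘁ) n) : ℕ∞) ≤ 2 * homDim hR B (T ⊗ Tᘁ) n ∧
          ((bt R T ^ (2 * n) : ℕ) : ℕ∞) ≤
            (2 * (n + 1) ^ (bt R T ^ 2) : ℕ) * homDim hR B (T ⊗ Tᘁ) n := by
  have hT : R.CPlus T := cplus_of_sign hs hpar
  obtain ⟨inst, h⟩ := isPow_tensor_dual hR hT hb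
  obtain ⟨N, h1, h2, h3, h4⟩ := fix_law h bot_stable (ker_stable (homKer hR)) B
  obtain ⟨d, k1, k2, k3⟩ := num_law h B
  have e0 : dimRel (fun Y : C => (⊥ : Submodule ℚ (𝟙_ C ⟶ Y)))
      (fun Y : C => (homKer hR).ker (𝟙_ C) Y) B (T ⊗ Tᘁ) = homDim hR B (T ⊗ Tᘁ) :=
    dimRel_ker _ B (T ⊗ Tᘁ)
  rw [e0] at h1
  refine ⟨N, d, h1, k1, ?_, ?_, k2, ?_, ?_⟩
  · rw [h2]
    refine forall_congr' fun n => ⟨fun h α hα => (Submodule.mem_bot ℚ).1 (h hα),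
      fun h α hα => (Submodule.mem_bot ℚ).2 (h α hα)⟩
  · constructor
    · intro hd n α
      by_contra hα
      exact k3.1 ⟨n, α, hα⟩ hd
    · intro hall
      by_contra hd
      obtain ⟨p, β, hβ⟩ := k3.2 hd
      exact hβ (hall p β)
  · intro hd k hk
    obtain ⟨p, β, hβ⟩ := k3.2 hd
    have hN : ∀ (a b : ℕ) (f : tp (T ⊗ Tᘁ) a ⟶ tp (T ⊗ Tᘁ) b), NumPow (T ⊗ Tᘁ) k f →
        ∀ x ∈ (homKer hR).ker (𝟙_ C) (B ⊗ tp (T ⊗ Tᘁ) a), x ≫ (B ◁ f) = 0 :=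
      fun a b f hf x hx => (Submodule.mem_bot ℚ).1 (h4 k hk a b f hf x hx)
    have key : ∀ (n : ℕ) (y : End (tp T n)), R.H.map (y : tp T n ⟶ tp T n) = 0 →
        y ^ (k + 1) = 0 :=
      fun n y hy => end_pow_hom hR (fun n y hy => hom_pow hR hN hβ n y hy) n y hy
    refine ⟨key, ?_⟩
    have hss : s * s = 1 := by
      rcases hs with rfl | rfl <;> norm_num
    have j1 := Pool.Agent.N861.AF.map_asym_zero R (unitQ_of hR) (E := T) s hss hpar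
    have hη : (-s) * (-s) = 1 := by linear_combination hss
    have j2 : IsIdempotentElem (show End (tp T (bt R T + 1)) from asym (-s) T (bt R T + 1)) :=
      asym_idem hη T _
    have j3 := j2.pow_succ_eq k
    rw [key _ (show End (tp T (bt R T + 1)) from asym (-s) T (bt R T + 1)) j1] at j3
    exact j3.symm
  · intro m n α hα hα' hn
    have e1 : bt R (T ⊗ Tᘁ) = bt R T ^ 2 := by rw [bt_tensor, bt_dual, sq]
    have h5 : (numRank ℚ (tp (T ⊗ Tᘁ) n) : ℕ∞) ≤ 2 * homDim hR B (T ⊗ Tᘁ) n := by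
      by_contra hcon
      rw [not_le] at hcon
      rw [e0] at h3
      have h6 := h3 m n (by
        rw [e1, ← pow_mul]
        have e2 : 2 * (2 * m + 6) = 4 * m + 12 := by ring
        rwa [e2]) hcon hα
      exact hα' ((Submodule.mem_bot ℚ).1 h6)
    exact ⟨h5, growth_nc hR hT h5⟩

end Pool.Agent.U226.FX
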