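import Pool.Agent.U226.FX.Main
import Pool.Agent.N64.AF.V2

/-!
# The law with a fixed factor for smash-nilpotence
-/

set_option autoImplicit false
set_option linter.unusedSectionVars false

open CategoryTheory Limits MonoidalCategory Module Filter Topology
open Pool.Agent.Y112.SR Pool.Agent.Y112.KD Pool.Agent.N64.AF
open scoped ENNReal

namespace Pool.Agent.U226.FX

universe v u w t x

variable {C : Type u} [Category.{v} C] [Preadditive C] [MonoidalCategory C]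
  [MonoidalPreadditive C] [SymmetricCategory C] [RightRigidCategory C]
  {Λ : Type t} [Field Λ] [CharZero Λ] [Linear Λ C] [MonoidalLinear Λ C]
  {K : Type w} [Field K] [IsAlgClosed K] [Algebra Λ K] {R : SuperRealisation C K}

/-- The dimension of the space of the numerically trivial classes on `B ⊗ T ^ n` modulo the
smash-nilpotent classes. -/
noncomputable def smashDefect (Λ : Type t) [Field Λ] [Linear Λ C] [MonoidalLinear Λ C] (B T : C)
    (n : ℕ) : ℕ∞ :=
  dimRel (fun Y : C => smashSub Λ Y) (fun Y : C => numIdeal Λ (𝟙_ C) Y) B T n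

lemma smash_stable : Stable (fun Y : C => smashSub Λ Y) := fun _ _ f _ ha => SmashNil.comp ha f

/-- An iterated power of a smash-nilpotent power. -/
lemma smash_of_pow {Z : C} {α : 𝟙_ C ⟶ Z} {k : ℕ} (h : SmashNil (tpow α k)) : SmashNil α := by
  obtain ⟨j, hj⟩ := h
  obtain ⟨f, hf⟩ := N690V2.exists_mul α k j
  exact ⟨k * j, by rw [← hf, hj, zero_comp]⟩

/-- **The law with a fixed factor for smash-nilpotence.** -/
theorem smash_fixed {T : C} [ExactPairing T T] (h : IsPow Λ R T) (B : C) :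
    ∃ N d : ℕ∞, RatioTo Λ T (smashDefect Λ B T) N ∧ RatioTo Λ T (rankSeq Λ B T) d ∧
      (N = 0 ↔ ∀ (n : ℕ) (α : 𝟙_ C ⟶ B ⊗ tp T n), NumTriv α → SmashNil α) ∧
      (d = 0 ↔ ∀ (n : ℕ) (α : 𝟙_ C ⟶ B ⊗ tp T n), NumTriv α) ∧
      (R.CPlus B → d ≤ bt R B) ∧
      (d ≠ 0 → d ≠ ⊤ → Quot (smashDefect Λ B T) (rankSeq Λ B T) ((N : ℝ≥0∞) / d)) ∧
      (d ≠ 0 → N ≠ ⊤ → ∀ (n : ℕ) (α : 𝟙_ C ⟶ tp T n), NumTriv α → SmashNil α) ∧
      ∀ (m n : ℕ) (α : 𝟙_ C ⟶ B ⊗ tp T m), NumTriv α → ¬ SmashNil α →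
        128 * (m + 1) ^ 2 * bt R T ^ (2 * m + 6) ≤ n →
          (numRank Λ (tp T n) : ℕ∞) ≤ 2 * smashDefect Λ B T n ∧
          ((bt R T ^ (2 * n) : ℕ) : ℕ∞) ≤
            (2 * (n + 1) ^ (bt R T ^ 2) : ℕ) * smashDefect Λ B T (n + n) := by
  obtain ⟨N, d, h1, h2, h3, h4, h5, h6, h7, h8⟩ := main h (smash_stable (Λ := Λ)) B
  refine ⟨N, d, h1, h2, h3, ?_, h4, h6, ?_, ?_⟩
  · constructor
    · intro hd n α
      by_contra hα
      exact h5.1 ⟨n, α, hα⟩ hd
    · intro hall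
      by_contra hd
      obtain ⟨p, β, hβ⟩ := h5.2 hd
      exact hβ (hall p β)
  · intro hd hN n α hα
    obtain ⟨p, β, hβ⟩ := h5.2 hd
    by_contra hcon
    exact hN (top_of h (smash_stable (Λ := Λ)) h8 hβ hα fun k hk => hcon (smash_of_pow hk))
  · intro m n α hα hα' hn
    have k1 := h7 m n hn α hα hα'
    have k2 := h7 m (n + n) (hn.trans (Nat.le_add_left n n)) α hα hα'
    exact ⟨k1, growth_of h k2⟩

end Pool.Agent.U226.FX
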