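import Pool.Agent.U226.FX.Smash
import Pool.Agent.U226.FX.Chi
import Pool.Agent.U226.FX.Hom

/-!
# Homologically trivial classes modulo smash-nilpotent classes
-/

set_option autoImplicit false
set_option linter.unusedSectionVars false

open CategoryTheory Limits MonoidalCategory Module Filter Topology
open Pool.Agent.Y112.SR Pool.Agent.Y112.KD Pool.Agent.N64.AF Pool.Agent.N413.AFW
open scoped ENNReal

namespace Pool.Agent.U226.FX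

universe v u w t x

section Mate

variable {C : Type u} [Category.{v} C] [Preadditive C] [MonoidalCategory C]
  [MonoidalPreadditive C]

/-- The class of an endomorphism. -/
def mate {Y D : C} [ExactPairing Y D] (f : Y ⟶ Y) : 𝟙_ C ⟶ Y ⊗ D := η_ Y D ≫ (f ▷ D)

/-- The composition of classes. -/
def mul {Y D : C} [ExactPairing Y D] : (Y ⊗ D) ⊗ (Y ⊗ D) ⟶ Y ⊗ D :=
  (α_ Y D (Y ⊗ D)).hom ≫ (Y ◁ ((α_ D Y D).inv ≫ (ε_ Y D ▷ D) ≫ (λ_ D).hom))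

lemma mate_zero {Y D : C} [ExactPairing Y D] {f : Y ⟶ Y} (h : mate (D := D) f = 0) : f = 0 := by
  have h1 : η_ Y D ≫ (f ▷ D) = 0 := h
  calc f = (λ_ Y).inv ≫ ((λ_ Y).hom ≫ (ρ_ Y).inv) ≫ (f ▷ 𝟙_ C) ≫ (ρ_ Y).hom := by
        rw [rightUnitor_naturality]
        simp
    _ = (λ_ Y).inv ≫ (η_ Y D ▷ Y ≫ (α_ Y D Y).hom ≫ Y ◁ ε_ Y D) ≫ (f ▷ 𝟙_ C) ≫ (ρ_ Y).hom := by
        rw [ExactPairing.evaluation_coevaluation]
    _ = (λ_ Y).inv ≫ ((η_ Y D ≫ (f ▷ D)) ▷ Y) ≫ (α_ Y D Y).hom ≫ (Y ◁ ε_ Y D) ≫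
          (ρ_ Y).hom := by
        simp only [Category.assoc, comp_whiskerRight]
        rw [whisker_exchange_assoc, associator_naturality_left_assoc]
    _ = 0 := by
        rw [h1]
        simp

lemma eta_mul {Y D : C} [ExactPairing Y D] :
    (λ_ (Y ⊗ D)).inv ≫ (η_ Y D ▷ (Y ⊗ D)) ≫ mul = 𝟙 (Y ⊗ D) := by
  unfold mul
  calc (λ_ (Y ⊗ D)).inv ≫ (η_ Y D ▷ (Y ⊗ D)) ≫ (α_ Y D (Y ⊗ D)).hom ≫
        (Y ◁ ((α_ D Y D).inv ≫ (ε_ Y D ▷ D) ≫ (λ_ D).hom))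
      = ((λ_ Y).inv ▷ D) ≫ ((η_ Y D ▷ Y ≫ (α_ Y D Y).hom ≫ Y ◁ ε_ Y D) ▷ D) ≫
          ((ρ_ Y).hom ▷ D) := by monoidal
    _ = 𝟙 (Y ⊗ D) := by
        rw [ExactPairing.evaluation_coevaluation, ← comp_whiskerRight, ← comp_whiskerRight]
        simp

lemma mate_mul {Y D : C} [ExactPairing Y D] (f g : Y ⟶ Y) :
    mate (D := D) f ≫ (ρ_ (Y ⊗ D)).inv ≫ ((Y ⊗ D) ◁ mate g) ≫ mul = mate (g ≫ f) := by
  have h1 : (f ▷ D) ≫ (ρ_ (Y ⊗ D)).inv ≫ ((Y ⊗ D) ◁ mate (D := D) g) ≫ mul =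
      (ρ_ (Y ⊗ D)).inv ≫ ((Y ⊗ D) ◁ mate (D := D) g) ≫ mul ≫ (f ▷ D) := by
    have h2 : (f ▷ D) ▷ (Y ⊗ D) ≫ mul = mul ≫ (f ▷ D) := by
      unfold mul
      rw [associator_naturality_left_assoc, ← whisker_exchange, Category.assoc]
    rw [rightUnitor_inv_naturality_assoc, ← whisker_exchange_assoc, h2]
  have h3 : η_ Y D ≫ (ρ_ (Y ⊗ D)).inv ≫ ((Y ⊗ D) ◁ mate (D := D) g) ≫ mul =
      mate (D := D) g := by
    have h4 : η_ Y D ≫ (ρ_ (Y ⊗ D)).inv ≫ ((Y ⊗ D) ◁ mate (D := D) g) =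
        mate (D := D) g ≫ (λ_ (Y ⊗ D)).inv ≫ (η_ Y D ▷ (Y ⊗ D)) := by
      rw [rightUnitor_inv_naturality_assoc, ← whisker_exchange,
        leftUnitor_inv_naturality_assoc, unitors_inv_equal]
    have h5 := congrArg (fun z => z ≫ mul) h4
    simp only [Category.assoc] at h5
    rw [h5, eta_mul, Category.comp_id]
  calc mate (D := D) f ≫ (ρ_ (Y ⊗ D)).inv ≫ ((Y ⊗ D) ◁ mate g) ≫ mul
      = η_ Y D ≫ (f ▷ D) ≫ (ρ_ (Y ⊗ D)).inv ≫ ((Y ⊗ D) ◁ mate (D := D) g) ≫ mul := by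
        rw [mate, Category.assoc]
    _ = (η_ Y D ≫ (ρ_ (Y ⊗ D)).inv ≫ ((Y ⊗ D) ◁ mate (D := D) g) ≫ mul) ≫ (f ▷ D) := by
        rw [h1]
        simp only [Category.assoc]
    _ = mate (g ≫ f) := by
        rw [h3, mate, mate, Category.assoc, comp_whiskerRight]

/-- The class of the power of an endomorphism is an image of the exterior power of its class. -/
theorem exists_pow_mate {Y D : C} [ExactPairing Y D] (y : End Y) (k : ℕ) :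
    ∃ c : tp (Y ⊗ D) (k + 1) ⟶ Y ⊗ D,
      tpow (mate (D := D) (y : Y ⟶ Y)) (k + 1) ≫ c =
        mate (D := D) ((y ^ (k + 1) : End Y) : Y ⟶ Y) := by
  induction k with
  | zero =>
    refine ⟨(λ_ (Y ⊗ D)).hom, ?_⟩
    change (𝟙 (𝟙_ C) ≫ (ρ_ (𝟙_ C)).inv ≫ (𝟙_ C ◁ mate (D := D) (y : Y ⟶ Y))) ≫
      (λ_ (Y ⊗ D)).hom = _
    rw [Category.id_comp, Category.assoc, leftUnitor_naturality, ← unitors_inv_equal,
      Iso.inv_hom_id_assoc, zero_add, pow_one]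
  | succ k ih =>
    obtain ⟨c, hc⟩ := ih
    refine ⟨(c ▷ (Y ⊗ D)) ≫ mul, ?_⟩
    change (tpow (mate (D := D) (y : Y ⟶ Y)) (k + 1) ≫ (ρ_ (tp (Y ⊗ D) (k + 1))).inv ≫
      (tp (Y ⊗ D) (k + 1) ◁ mate (D := D) (y : Y ⟶ Y))) ≫ (c ▷ (Y ⊗ D)) ≫ mul = _
    rw [Category.assoc, Category.assoc, whisker_exchange_assoc,
      ← rightUnitor_inv_naturality_assoc, ← Category.assoc (tpow _ _), hc, mate_mul]
    rw [pow_succ _ (k + 1)]
    rfl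

/-- **An endomorphism with a smash-nilpotent class is nilpotent.** -/
theorem nil_of_smash {Y D : C} [ExactPairing Y D] (y : End Y)
    (h : SmashNil (mate (D := D) (y : Y ⟶ Y))) : IsNilpotent y := by
  obtain ⟨k, hk⟩ := h
  refine ⟨k + 1, ?_⟩
  obtain ⟨c, hc⟩ := exists_pow_mate (D := D) y k
  have h1 : tpow (mate (D := D) (y : Y ⟶ Y)) (k + 1) = 0 := by
    change tpow (mate (D := D) (y : Y ⟶ Y)) k ≫ _ = 0
    rw [hk, zero_comp]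
  rw [h1, zero_comp] at hc
  exact mate_zero (D := D) hc.symm

end Mate

variable {C : Type u} [Category.{v} C] [Preadditive C] [MonoidalCategory C]
  [MonoidalPreadditive C] [SymmetricCategory C] [RightRigidCategory C]
  [Linear ℚ C] [MonoidalLinear ℚ C]
  {K : Type w} [Field K] [IsAlgClosed K] [Algebra ℚ K] {R : SuperRealisation C K}

/-- The reversed powers. -/
def dpIso (T : C) : ∀ n : ℕ, dp T n ≅ tp T n
  | 0 => Iso.refl _
  | n + 1 => β_ T (dp T n) ≪≫ whiskerRightIso (dpIso T n) T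

lemma smashNil_of_iso {Y Z : C} (i : Y ≅ Z) {α : 𝟙_ C ⟶ Y} (h : SmashNil (α ≫ i.hom)) :
    SmashNil α := by
  have h1 := SmashNil.comp h i.inv
  rwa [Category.assoc, Iso.hom_inv_id, Category.comp_id] at h1

/-- The dimension of the space of the homologically trivial classes on `B ⊗ T ^ n` modulo the
smash-nilpotent classes. -/
noncomputable def hsDefect (hR : IsReal ℚ R) (B T : C) (n : ℕ) : ℕ∞ :=
  dimRel (fun Y : C => smashSub ℚ Y) (fun Y : C => homSub hR (𝟙_ C) Y) B T n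

/-- **The law with a fixed factor, homologically trivial classes modulo smash-nilpotent ones.** -/
theorem hs_fixed [IsIdempotentComplete C] {T : C} [ExactPairing T T] (h : IsPow ℚ R T) (B : C) :
    ∃ N d : ℕ∞, RatioTo ℚ T (hsDefect h.real B T) N ∧ RatioTo ℚ T (rankSeq ℚ B T) d ∧
      (N = 0 ↔ ∀ (n : ℕ) (α : 𝟙_ C ⟶ B ⊗ tp T n), R.H.map α = 0 → SmashNil α) ∧
      (d = 0 ↔ ∀ (n : ℕ) (α : 𝟙_ C ⟶ B ⊗ tp T n), NumTriv α) ∧
      (R.CPlus B → d ≤ bt R B) ∧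
      (d ≠ 0 → N ≠ ⊤ → Pool.Agent.R905.IsKimuraFinite T ∧
        ∀ (n : ℕ) (α : 𝟙_ C ⟶ tp T n), R.H.map α = 0 → SmashNil α) ∧
      ∀ (m n : ℕ) (α : 𝟙_ C ⟶ B ⊗ tp T m), R.H.map α = 0 → ¬ SmashNil α →
        128 * (m + 1) ^ 2 * bt R T ^ (2 * m + 6) ≤ n →
          (numRank ℚ (tp T n) : ℕ∞) ≤ 2 * hsDefect h.real B T n ∧
          ((bt R T ^ (2 * n) : ℕ) : ℕ∞) ≤
            (2 * (n + 1) ^ (bt R T ^ 2) : ℕ) * hsDefect h.real B T (n + n) := by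
  obtain ⟨N, h1, h2, h3, h4⟩ := fix_law h (smash_stable (Λ := ℚ)) (hom_stable h.real) B
  obtain ⟨d, k1, k2, k3⟩ := num_law h B
  have h3' : ∀ (m n : ℕ) (α : 𝟙_ C ⟶ B ⊗ tp T m), R.H.map α = 0 → ¬ SmashNil α →
      128 * (m + 1) ^ 2 * bt R T ^ (2 * m + 6) ≤ n →
        (numRank ℚ (tp T n) : ℕ∞) ≤ 2 * hsDefect h.real B T n := by
    intro m n α hα hα' hn
    by_contra hcon
    rw [not_le] at hcon
    exact hα' (h3 m n hn hcon hα)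
  refine ⟨N, d, h1, k1, h2.trans (forall_congr' fun n => Iff.rfl), ?_, k2, ?_, ?_⟩
  · constructor
    · intro hd n α
      by_contra hα
      exact k3.1 ⟨n, α, hα⟩ hd
    · intro hall
      by_contra hd
      obtain ⟨p, β, hβ⟩ := k3.2 hd
      exact hβ (hall p β)
  · intro hd hN
    obtain ⟨p, β, hβ⟩ := k3.2 hd
    obtain ⟨k, rfl⟩ := ENat.ne_top_iff_exists.1 hN
    obtain ⟨β', hβ'⟩ := exists_dual h.real hβ
    have key : ∀ (n : ℕ) (α : 𝟙_ C ⟶ tp T n), R.H.map α = 0 → SmashNil α := by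
      intro n α hα
      refine smash_of_pow (k := 1 + k) (breed (I := fun Y => homSub h.real (𝟙_ C) Y) h
        (smash_stable (Λ := ℚ)) (h4 k rfl) hβ' (numTriv_of_map h.real hα) fun i => ?_)
      change R.H.map (β ≫ (B ◁ ((ρ_ (tp T p)).inv ≫ (tp T p ◁ α) ≫ i.hom))) = 0
      simp only [Functor.map_comp, Functor.Monoidal.map_whiskerLeft, hα,
        MonoidalPreadditive.whiskerLeft_zero, zero_comp, comp_zero]
    refine ⟨kimura_of_nil h.real h.cplus fun n y hy => ?_, key⟩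
    let _ : ExactPairing (tp T n) (dp T n) := pairTp T T n
    obtain ⟨i, -⟩ := exists_tp_iso T n n
    refine nil_of_smash (D := dp T n) y (smashNil_of_iso (whiskerLeftIso (tp T n) (dpIso T n) ≪≫ i)
      (key _ _ ?_))
    rw [mate, Functor.map_comp, Functor.map_comp, Functor.Monoidal.map_whiskerRight, hy]
    simp
  · intro m n α hα hα' hn
    exact ⟨h3' m n α hα hα' hn,
      growth_of h (h3' m (n + n) α hα hα' (hn.trans (Nat.le_add_left n n)))⟩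

lemma map_zero_of_smash (_hR : IsReal ℚ R) {Z : C} {α : 𝟙_ C ⟶ Z} (h : SmashNil α) :
    R.H.map α = 0 := by
  by_contra hne
  obtain ⟨k, hk⟩ := h
  exact map_tpow_ne R hne k (by rw [hk, Functor.map_zero])

/-- **The law with a fixed factor for the powers of `T ⊗ Tᘁ`, numerically trivial classes modulo
smash-nilpotent ones.** -/
theorem ns_fixed_nc [IsIdempotentComplete C] (hR : IsReal ℚ R) {T : C} (hT : R.CPlus T)
    (hb : 0 < bt R T) (B : C) : ∃ N d : ℕ∞,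
      RatioTo ℚ (T ⊗ Tᘁ) (smashDefect ℚ B (T ⊗ Tᘁ)) N ∧
      RatioTo ℚ (T ⊗ Tᘁ) (rankSeq ℚ B (T ⊗ Tᘁ)) d ∧
      (N = 0 ↔ ∀ (n : ℕ) (α : 𝟙_ C ⟶ B ⊗ tp (T ⊗ Tᘁ) n), NumTriv α → SmashNil α) ∧
      (d = 0 ↔ ∀ (n : ℕ) (α : 𝟙_ C ⟶ B ⊗ tp (T ⊗ Tᘁ) n), NumTriv α) ∧
      (R.CPlus B → d ≤ bt R B) ∧
      (d ≠ 0 → N ≠ ⊤ → Pool.Agent.R905.IsKimuraFinite T ∧
        ∀ (n : ℕ) (α : 𝟙_ C ⟶ tp (T ⊗ Tᘁ) n), NumTriv α → SmashNil α ∧ R.H.map α = 0) ∧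
      ∀ (m n : ℕ) (α : 𝟙_ C ⟶ B ⊗ tp (T ⊗ Tᘁ) m), NumTriv α → ¬ SmashNil α →
        128 * (m + 1) ^ 2 * bt R T ^ (4 * m + 12) ≤ n →
          (numRank ℚ (tp (T ⊗ Tᘁ) n) : ℕ∞) ≤ 2 * smashDefect ℚ B (T ⊗ Tᘁ) n ∧
          ((bt R T ^ (2 * n) : ℕ) : ℕ∞) ≤
            (2 * (n + 1) ^ (bt R T ^ 2) : ℕ) * smashDefect ℚ B (T ⊗ Tᘁ) n := by
  obtain ⟨N, d, h1, h2, h3, h4, h5, -, h7, h8⟩ := main_nc hR hT hb (smash_stable (Λ := ℚ)) B
  obtain ⟨inst, hS⟩ := isPow_tensor_dual hR hT hb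
  refine ⟨N, d, h1, h2, h3, h4, h5, ?_, fun m n α hα hα' hn => h7 m n hn α hα hα'⟩
  intro hd hN
  have hex : ∃ (p : ℕ) (β : 𝟙_ C ⟶ B ⊗ tp (T ⊗ Tᘁ) p), ¬ NumTriv β := by
    by_contra hcon
    push Not at hcon
    exact hd (h4.2 hcon)
  obtain ⟨p, β, hβ⟩ := hex
  have key : ∀ (n : ℕ) (α : 𝟙_ C ⟶ tp (T ⊗ Tᘁ) n), NumTriv α → SmashNil α := by
    intro n α hα
    by_contra hcon
    exact hN (top_of hS (smash_stable (Λ := ℚ)) h8 hβ hα fun k hk => hcon (smash_of_pow hk))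
  refine ⟨kimura_of_nil hR hT fun n y hy => ?_, fun n α hα =>
    ⟨key n α hα, map_zero_of_smash hR (key n α hα)⟩⟩
  let _ : ExactPairing (tp T n) (dp Tᘁ n) := pairTp T Tᘁ n
  refine nil_of_smash (D := dp Tᘁ n) y (smashNil_of_iso (isoTp T Tᘁ n).symm
    (key _ _ (numTriv_of_map hR ?_)))
  rw [mate, Functor.map_comp, Functor.map_comp, Functor.Monoidal.map_whiskerRight, hy]
  simp

end Pool.Agent.U226.FX
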